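import Pool.Agent.Helper27.TF.Bcd

/-!
Project TF (MP_b8862a_ag): the trace identity for `B_m`, `C_m`, `D_m`, `m ≥ 9`.
-/

set_option linter.unusedSectionVars false

open Module PF

namespace TF

/-- integral vectors of small length -/
theorem small_z {m : ℕ} {z : Fin m → ℤ} (h : ∑ i, |z i| ≤ 2) : (∀ i, z i = 0) ∨
    (∃ k, |z k| = 1 ∧ ∀ j, j ≠ k → z j = 0) ∨ (∃ k, |z k| = 2 ∧ ∀ j, j ≠ k → z j = 0) ∨
    (∃ k l, k ≠ l ∧ |z k| = 1 ∧ |z l| = 1 ∧ ∀ j, j ≠ k → j ≠ l → z j = 0) := by
  classical
  by_cases h0 : ∀ i, z i = 0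
  · exact Or.inl h0
  push Not at h0
  obtain ⟨k, hk⟩ := h0
  have hk1 := Int.one_le_abs hk
  have h1 : ∑ i, |z i| = |z k| + ∑ i ∈ Finset.univ.erase k, |z i| :=
    (Finset.add_sum_erase _ _ (Finset.mem_univ k)).symm
  by_cases h2 : ∀ j, j ≠ k → z j = 0
  · have h3 : ∑ i ∈ Finset.univ.erase k, |z i| = 0 := by
      refine Finset.sum_eq_zero fun i hi => ?_
      rw [h2 i (Finset.mem_erase.1 hi).1, abs_zero]
    rw [h1, h3] at h
    have h4 : |z k| = 1 ∨ |z k| = 2 := by omega
    rcases h4 with h4 | h4
    · exact Or.inr (Or.inl ⟨k, h4, h2⟩)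
    · exact Or.inr (Or.inr (Or.inl ⟨k, h4, h2⟩))
  · push Not at h2
    obtain ⟨l, hlk, hl⟩ := h2
    have hl1 := Int.one_le_abs hl
    have h3 : ∑ i ∈ Finset.univ.erase k, |z i| = |z l| + ∑ i ∈ (Finset.univ.erase k).erase l, |z i| :=
      (Finset.add_sum_erase _ _ (Finset.mem_erase.2 ⟨hlk, Finset.mem_univ l⟩)).symm
    have h4 : 0 ≤ ∑ i ∈ (Finset.univ.erase k).erase l, |z i| := Finset.sum_nonneg fun i _ => abs_nonneg _
    refine Or.inr (Or.inr (Or.inr ⟨k, l, hlk.symm, by omega, by omega, fun j hjk hjl => ?_⟩))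
    have h5 : ∑ i ∈ (Finset.univ.erase k).erase l, |z i| = 0 := by omega
    have h6 := (Finset.sum_eq_zero_iff_of_nonneg fun i _ => abs_nonneg (z i)).1 h5 j
      (Finset.mem_erase.2 ⟨hjl, Finset.mem_erase.2 ⟨hjk, Finset.mem_univ j⟩⟩)
    exact abs_eq_zero.1 h6

variable {E : Type*} [NormedAddCommGroup E] [InnerProductSpace ℝ E] {Φ X : Finset E}
  {m : ℕ} {e : Fin m → E} {c : ℝ} {d : ℕ} {n T : ℕ} {l y : E}

theorem Fr.e_mem (F : Fr Φ m e c d) (hm : 2 ≤ m) (k : Fin m) : e k ∈ Submodule.span ℝ (Φ : Set E) := by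
  rw [F.span hm]
  exact Submodule.subset_span ⟨k, rfl⟩

theorem Fr.cx_e (F : Fr Φ m e c d) (k i : Fin m) : cx e c (c • e k) i = if k = i then 1 else 0 := by
  have := F.cx_long 1 k i
  rw [one_mul, one_mul] at this
  exact this

theorem cx_neg (x : E) (i : Fin m) : cx e c (-x) i = -cx e c x i := by
  unfold cx
  rw [inner_neg_left, neg_div]

theorem Fr.norm_eq (F : Fr Φ m e c d) (hm : 2 ≤ m) {x : E} (hx : x ∈ Submodule.span ℝ (Φ : Set E))
    (z : Fin m → ℤ) (hz : ∀ i, cx e c x i = z i) : (inner ℝ x x : ℝ) = c ^ 2 * ∑ i, (z i : ℝ) ^ 2 := by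
  have hc := F.pos
  rw [F.inner_eq hm hx, Finset.mul_sum]
  refine Finset.sum_congr rfl fun i _ => ?_
  have := hz i
  unfold cx at this
  rw [div_eq_iff hc.ne'] at this
  rw [this]
  ring

theorem Fr.norm_root (F : Fr Φ m e c d) {a : E} (ha : a ∈ Φ) :
    (inner ℝ a a : ℝ) = 2 * c ^ 2 ∨ (d ≠ 0 ∧ (inner ℝ a a : ℝ) = d ^ 2 * c ^ 2) := by
  classical
  rw [F.image] at ha
  rcases Finset.mem_union.1 ha with h | h
  · left
    rcases Finset.mem_union.1 h with h | h
    · obtain ⟨p, hp, rfl⟩ := Finset.mem_image.1 h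
      exact F.inner_rt_self (Finset.mem_offDiag.1 hp).2.2 (Or.inl rfl) (Or.inr rfl)
    · obtain ⟨p, hp, rfl⟩ := Finset.mem_image.1 h
      exact F.inner_rt_self (Finset.mem_offDiag.1 hp).2.2 (sg_or p) (sg_or p)
  · right
    by_cases hd : d = 0
    · rw [if_pos hd] at h
      exact absurd h (Finset.notMem_empty _)
    · rw [if_neg hd] at h
      refine ⟨hd, ?_⟩
      rcases Finset.mem_union.1 h with h | h
      · obtain ⟨i, _, rfl⟩ := Finset.mem_image.1 h
        rw [inner_smul_left, inner_smul_right, F.inner_e, if_pos rfl]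
        simp only [conj_trivial]
        ring
      · obtain ⟨i, _, rfl⟩ := Finset.mem_image.1 h
        rw [inner_smul_left, inner_smul_right, F.inner_e, if_pos rfl]
        simp only [conj_trivial]
        ring

/-- a weight of length one is `± c e_k` -/
theorem Fr.eq_single (F : Fr Φ m e c d) (hm : 2 ≤ m) {x : E} (hx : x ∈ Submodule.span ℝ (Φ : Set E))
    (z : Fin m → ℤ) (hz : ∀ i, cx e c x i = z i) {k : Fin m} (hk : |z k| = 1) (hj : ∀ j, j ≠ k → z j = 0) :
    x = c • e k ∨ x = -(c • e k) := by
  have he := Submodule.smul_mem _ c (F.e_mem hm k)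
  have h1 : z k = 1 ∨ z k = -1 := by
    rcases abs_cases (z k) with h | h <;> omega
  rcases h1 with h1 | h1
  · left
    refine F.eq_of_cx hm hx he fun i => ?_
    rw [hz i, F.cx_e]
    by_cases hi : i = k
    · rw [hi, h1, if_pos rfl]; norm_num
    · rw [hj i hi, if_neg (Ne.symm hi)]; norm_num
  · right
    refine F.eq_of_cx hm hx (Submodule.neg_mem _ he) fun i => ?_
    rw [hz i, cx_neg, F.cx_e]
    by_cases hi : i = k
    · rw [hi, h1, if_pos rfl]; norm_num
    · rw [hj i hi, if_neg (Ne.symm hi)]; norm_num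

/-- all `± c e_i` are weights as soon as one is -/
theorem Fr.all_single (F : Fr Φ m e c d) (hX : Sat Φ X) {k : Fin m} (hk : c • e k ∈ X ∨ -(c • e k) ∈ X)
    (i : Fin m) : c • e i ∈ X := by
  have h1 : c • e k ∈ X := by
    rcases hk with h | h
    · exact h
    · have := hX.neg _ h
      rwa [neg_neg] at this
  by_cases hik : k = i
  · rw [← hik]; exact h1
  · have h2 := hX.str _ (F.rt_mem hik (s := 1) (t := -1) (Or.inl rfl) (Or.inr rfl)) _ h1 1 (by
      rw [F.co_rt hik (Or.inl rfl) (Or.inr rfl), F.cx_e, F.cx_e, if_pos rfl, if_neg hik]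
      norm_num)
    have h3 : c • e k - ((1 : ℕ) : ℝ) • rt e c 1 (-1) k i = c • e i := by
      simp only [rt, Int.cast_neg, Int.cast_one, neg_smul, one_smul, Nat.cast_one, smul_add, smul_neg]
      abel
    rw [h3] at h2
    exact h2

theorem Fr.parity (F : Fr Φ m e c d) (hd : d ≠ 1) {v : E} (hv : v ∈ AddSubgroup.closure (Φ : Set E)) :
    ∃ q : ℤ, ∑ i, cx e c v i = 2 * q := by
  classical
  have hadd : ∀ v w : E, ∑ i, cx e c (v + w) i = ∑ i, cx e c v i + ∑ i, cx e c w i := by
    intro v w
    rw [← Finset.sum_add_distrib]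
    refine Finset.sum_congr rfl fun i _ => ?_
    unfold cx
    rw [inner_add_left, add_div]
  have hrt : ∀ s t : ℤ, ∀ i j, ∑ k, cx e c (rt e c s t i j) k = s + t := by
    intro s t i j
    simp only [F.cx_rt, Finset.sum_add_distrib, mul_ite, mul_one, mul_zero, Finset.sum_ite_eq, Finset.mem_univ,
      if_true]
  induction hv using AddSubgroup.closure_induction with
  | mem a ha =>
    rw [SetLike.mem_coe, F.image] at ha
    rcases Finset.mem_union.1 ha with h | h
    · rcases Finset.mem_union.1 h with h | h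
      · obtain ⟨p, hp, rfl⟩ := Finset.mem_image.1 h
        exact ⟨0, by rw [hrt]; norm_num⟩
      · obtain ⟨p, hp, rfl⟩ := Finset.mem_image.1 h
        exact ⟨sg p, by rw [hrt]; ring⟩
    · by_cases hd0 : d = 0
      · rw [if_pos hd0] at h
        exact absurd h (Finset.notMem_empty _)
      · rw [if_neg hd0] at h
        have hle := F.le
        have hd2 : d = 2 := by omega
        rcases Finset.mem_union.1 h with h | h
        · obtain ⟨i, _, rfl⟩ := Finset.mem_image.1 h
          refine ⟨1, ?_⟩
          simp only [F.cx_long, mul_ite, mul_one, mul_zero, Finset.sum_ite_eq, Finset.mem_univ, if_true]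
          rw [hd2]; norm_num
        · obtain ⟨i, _, rfl⟩ := Finset.mem_image.1 h
          refine ⟨-1, ?_⟩
          simp only [F.cx_long, mul_ite, mul_one, mul_zero, Finset.sum_ite_eq, Finset.mem_univ, if_true]
          rw [hd2]; norm_num
  | zero => exact ⟨0, by simp [cx]⟩
  | add v w _ _ hv hw =>
    obtain ⟨p, hp⟩ := hv
    obtain ⟨q, hq⟩ := hw
    exact ⟨p + q, by rw [hadd, hp, hq]; push_cast; ring⟩
  | neg v _ hv =>
    obtain ⟨p, hp⟩ := hv
    refine ⟨-p, ?_⟩
    simp only [cx_neg, Finset.sum_neg_distrib]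
    rw [hp]; push_cast; ring

/-- **The trace identity for `B_m`, `C_m`, `D_m`.** -/
theorem In.bcd (h : In Φ X n T l y) (F : Fr Φ m e c d) (hm : 9 ≤ m) :
    n ≤ 64000 * Nat.gcd n T ^ 3 ∨ TypeB Φ X ∨ TypeD Φ X ∨
      (l ∈ Φ ∧ ∀ a ∈ Φ, (inner ℝ a a : ℝ) ≤ inner ℝ l l) := by
  classical
  have hc := F.pos
  have hc2 : (0 : ℝ) < c ^ 2 := by positivity
  have hm2 : 2 ≤ m := by omega
  have hg : 0 < Nat.gcd n T := Nat.gcd_pos_of_pos_left _ h.n_pos
  rcases F.comb h.sat (by omega) with hbig | hsm
  · left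
    exact big_three hm (hbig.trans h.card_le) (h.general F hm)
  obtain ⟨z, hz, hz2⟩ := hsm l h.l_mem
  have hlsp := Sat.span27 h.sat h.l_mem
  have hln := F.norm_eq hm2 hlsp z hz
  obtain ⟨B, hB⟩ := F.y_int hm2 h.y_mem h.lev
  have hidt := h.idt
  rw [F.finrank hm2] at hidt
  -- sums of coordinates
  have hsumsingle : ∀ (f : ℤ → ℝ), f 0 = 0 → ∀ (z : Fin m → ℤ) (k : Fin m), (∀ j, j ≠ k → z j = 0) →
      ∑ i, f (z i) = f (z k) := by
    intro f hf z k hj
    refine Finset.sum_eq_single k (fun i _ hi => by rw [hj i hi, hf]) (fun h => absurd (Finset.mem_univ k) h)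
  have hsumtwo : ∀ (f : ℤ → ℝ), f 0 = 0 → ∀ (z : Fin m → ℤ) (k l : Fin m), k ≠ l →
      (∀ j, j ≠ k → j ≠ l → z j = 0) → ∑ i, f (z i) = f (z k) + f (z l) := by
    intro f hf z k l hkl hj
    rw [← Finset.add_sum_erase _ _ (Finset.mem_univ k),
      ← Finset.add_sum_erase _ _ (Finset.mem_erase.2 ⟨hkl.symm, Finset.mem_univ l⟩),
      Finset.sum_eq_zero, add_zero]
    intro i hi
    have h1 := Finset.mem_erase.1 hi
    rw [hj i (Finset.mem_erase.1 h1.2).1 h1.1, hf]
  rcases small_z hz2 with hz0 | ⟨k, hk, hj⟩ | ⟨k, hk, hj⟩ | ⟨k, k', hkk, hk, hk', hj⟩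
  · exfalso
    apply h.l_ne
    have : (inner ℝ l l : ℝ) = 0 := by rw [hln]; simp [hz0]
    exact inner_self_eq_zero.1 this
  · -- the standard representations
    have hl1 : (inner ℝ l l : ℝ) = c ^ 2 := by
      rw [hln, hsumsingle (fun x => (x : ℝ) ^ 2) (by norm_num) z k hj]
      have h1 : (z k : ℝ) ^ 2 = 1 := by
        have : (z k) ^ 2 = 1 := by rw [← sq_abs, hk]; norm_num
        exact_mod_cast this
      rw [h1, mul_one]
    have hall := F.all_single h.sat (k := k) (by
      rcases F.eq_single hm2 hlsp z hz hk hj with h1 | h1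
      · exact Or.inl (h1 ▸ h.l_mem)
      · exact Or.inr (h1 ▸ h.l_mem))
    have hform : ∀ x ∈ X, x = 0 ∨ ∃ i, x = c • e i ∨ x = -(c • e i) := by
      intro x hx
      obtain ⟨w, hw, hw2⟩ := hsm x hx
      have hxsp := Sat.span27 h.sat hx
      have hxn := F.norm_eq hm2 hxsp w hw
      have hle := h.l_max x hx
      rw [hxn, hl1] at hle
      have hle2 : ∑ i, (w i : ℝ) ^ 2 ≤ 1 := by
        by_contra hcon
        push Not at hcon
        nlinarith
      rcases small_z hw2 with h0 | ⟨i, hi, hj'⟩ | ⟨i, hi, hj'⟩ | ⟨i, i', hii, hi, hi', hj'⟩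
      · left
        have : (inner ℝ x x : ℝ) = 0 := by rw [hxn]; simp [h0]
        exact inner_self_eq_zero.1 this
      · exact Or.inr ⟨i, F.eq_single hm2 hxsp w hw hi hj'⟩
      · exfalso
        rw [hsumsingle (fun x => (x : ℝ) ^ 2) (by norm_num) w i hj'] at hle2
        have h1 : (w i : ℝ) ^ 2 = 4 := by
          have : (w i) ^ 2 = 4 := by rw [← sq_abs, hi]; norm_num
          exact_mod_cast this
        linarith
      · exfalso
        rw [hsumtwo (fun x => (x : ℝ) ^ 2) (by norm_num) w i i' hii hj'] at hle2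
        have h1 : (w i : ℝ) ^ 2 = 1 := by
          have : (w i) ^ 2 = 1 := by rw [← sq_abs, hi]; norm_num
          exact_mod_cast this
        have h2 : (w i' : ℝ) ^ 2 = 1 := by
          have : (w i') ^ 2 = 1 := by rw [← sq_abs, hi']; norm_num
          exact_mod_cast this
        linarith
    by_cases hd : d = 1
    · -- type B
      right; left
      refine ⟨m, e, F.on, c, F.pos, fun x => ⟨hform x, ?_⟩, fun a => ?_⟩
      · rintro (rfl | ⟨i, rfl | rfl⟩)
        · have h2 : ((d : ℝ) * c) • e k ∈ Φ := by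
            rw [F.mem]
            exact Or.inr ⟨by omega, k, Or.inl rfl⟩
          have h3 := h.sat.str _ h2 _ (hall k) 1 (by
            unfold co
            rw [inner_smul_left, inner_smul_right, inner_smul_left, inner_smul_right, F.inner_e, if_pos rfl, hd]
            simp only [conj_trivial]
            push_cast
            field_simp
            norm_num)
          rw [hd, Nat.cast_one, one_mul, one_smul, sub_self] at h3
          exact h3
        · exact hall i
        · exact h.sat.neg _ (hall i)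
      · rw [F.mem a, hd]
        constructor
        · rintro (⟨i, j, hij, h1⟩ | ⟨_, i, h1⟩)
          · exact Or.inr ⟨i, j, hij, h1⟩
          · rw [Nat.cast_one, one_mul] at h1
            exact Or.inl ⟨i, h1⟩
        · rintro (⟨i, h1⟩ | ⟨i, j, hij, h1⟩)
          · refine Or.inr ⟨by norm_num, i, ?_⟩
            rw [Nat.cast_one, one_mul]
            exact h1
          · exact Or.inl ⟨i, j, hij, h1⟩
    · -- type D
      right; right; left
      refine ⟨m, e, F.on, c, F.pos, by omega, fun x => ⟨fun hx => ?_, ?_⟩, fun i j hij => ⟨?_, ?_, ?_⟩⟩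
      · rcases hform x hx with rfl | h1
        · exfalso
          have h2 := h.sat.coset _ (hall k) _ hx
          rw [sub_zero] at h2
          obtain ⟨q, hq⟩ := F.parity hd h2
          have h3 : ∑ i, cx e c (c • e k) i = 1 := by
            simp only [F.cx_e, Finset.sum_ite_eq, Finset.mem_univ, if_true]
          rw [h3] at hq
          have h4 : (1 : ℤ) = 2 * q := by exact_mod_cast hq
          omega
        · exact h1
      · rintro ⟨i, rfl | rfl⟩
        · exact hall i
        · exact h.sat.neg _ (hall i)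
      · rw [F.mem]; exact Or.inl ⟨i, j, hij, Or.inl rfl⟩
      · rw [F.mem]; exact Or.inl ⟨i, j, hij, Or.inr (Or.inl rfl)⟩
      · rw [F.mem]; exact Or.inl ⟨i, j, hij, Or.inr (Or.inr rfl)⟩
  · -- the highest weight `2 e_k`
    have hzk : z k = 2 ∨ z k = -2 := by
      rcases abs_cases (z k) with h | h <;> omega
    have hzk2 : (z k : ℝ) ^ 2 = 4 := by
      have : (z k) ^ 2 = 4 := by rw [← sq_abs, hk]; norm_num
      exact_mod_cast this
    have hl1 : (inner ℝ l l : ℝ) = 4 * c ^ 2 := by
      rw [hln, hsumsingle (fun x => (x : ℝ) ^ 2) (by norm_num) z k hj, hzk2]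
      ring
    by_cases hd : d = 2
    · -- adjoint
      right; right; right
      refine ⟨?_, fun a ha => ?_⟩
      · rw [F.mem]
        refine Or.inr ⟨by omega, k, ?_⟩
        have he : ((d : ℝ) * c) • e k ∈ Submodule.span ℝ (Φ : Set E) := Submodule.smul_mem _ _ (F.e_mem hm2 k)
        rcases hzk with h1 | h1
        · left
          refine F.eq_of_cx hm2 hlsp he fun i => ?_
          rw [hz i, F.cx_long]
          by_cases hi : i = k
          · rw [hi, h1, if_pos rfl, hd]; norm_num
          · rw [hj i hi, if_neg (Ne.symm hi)]; norm_num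
        · right
          refine F.eq_of_cx hm2 hlsp (Submodule.neg_mem _ he) fun i => ?_
          rw [hz i, cx_neg, F.cx_long]
          by_cases hi : i = k
          · rw [hi, h1, if_pos rfl, hd]; norm_num
          · rw [hj i hi, if_neg (Ne.symm hi)]; norm_num
      · rw [hl1]
        rcases F.norm_root ha with h1 | ⟨_, h1⟩
        · rw [h1]; nlinarith
        · rw [h1, hd]; norm_num
    · -- the symmetric square
      left
      have hd1 : d ≤ 1 := by have := F.le; omega
      have hcas := F.cas_eq hm2 hlsp z hz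
      have hs1 : ∑ i, (z i : ℝ) ^ 2 = 4 := by
        rw [hsumsingle (fun x => (x : ℝ) ^ 2) (by norm_num) z k hj, hzk2]
      have habs : |(z k : ℝ)| = 2 := by
        rw [← Int.cast_abs, hk]; norm_num
      have hs2 : ∑ i, |(z i : ℝ)| = 2 := by
        rw [hsumsingle (fun x => |(x : ℝ)|) (by norm_num) z k hj, habs]
      have hs3 : ∑ p ∈ (Finset.univ : Finset (Fin m)).offDiag, max |(z p.1 : ℝ)| |(z p.2 : ℝ)| = 4 * m - 4 := by
        have h1 : ∑ p ∈ (Finset.univ : Finset (Fin m)).offDiag, max |(z p.1 : ℝ)| |(z p.2 : ℝ)| =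
            ∑ p ∈ (Finset.univ : Finset (Fin m)).offDiag, (|(z p.1 : ℝ)| + |(z p.2 : ℝ)|) := by
          refine Finset.sum_congr rfl fun p hp => ?_
          have hp' := (Finset.mem_offDiag.1 hp).2.2
          by_cases h2 : p.1 = k
          · have h3 : z p.2 = 0 := hj _ (fun h => hp' (h2.trans h.symm))
            rw [h3]; simp
          · rw [hj _ h2]; simp
        rw [h1, sum_off (fun i j => |(z i : ℝ)| + |(z j : ℝ)|)]
        simp only [Finset.sum_add_distrib, Finset.sum_const, Finset.card_univ, Fintype.card_fin, nsmul_eq_mul]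
        rw [← Finset.mul_sum, hs2]
        ring
      rw [hs1, hs2, hs3] at hcas
      have hcard := F.card
      -- the divisibility
      have hdiv : n ≤ Nat.gcd n T * (2 * m + 1) := by
        interval_cases d
        · -- d = 0
          rw [if_pos rfl] at hcard
          have h1 : ((n * (4 * B) : ℤ) : ℝ) = ((T * (2 * m - 1) : ℤ) : ℝ) := by
            push_cast
            rw [← hB]
            rw [hcas, hcard] at hidt
            have hm0 : (m : ℝ) ≠ 0 := by
              have : (9 : ℝ) ≤ m := by exact_mod_cast hm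
              linarith
            have h2 : (m : ℝ) * ((n : ℝ) * (4 * (4 * c ^ 2 * inner ℝ y y))) = m * (T * (2 * m - 1)) := by
              push_cast at hidt
              linear_combination hidt
            exact mul_left_cancel₀ hm0 h2
          have h2 : (n : ℤ) ∣ T * (2 * m - 1) := ⟨4 * B, by exact_mod_cast h1.symm⟩
          have h3 : (n : ℤ) ∣ ((T * (2 * m - 1) : ℕ) : ℤ) := by
            rw [Nat.cast_mul, Nat.cast_sub (by omega)]
            push_cast
            exact h2
          have h4 := le_of_mul h.n_pos (by omega) (Int.natCast_dvd_natCast.1 h3)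
          exact h4.trans (Nat.mul_le_mul_left _ (by omega))
        · -- d = 1
          rw [if_neg one_ne_zero] at hcard
          have h1 : ((n * (2 * B) : ℤ) : ℝ) = ((T * m : ℕ) : ℝ) := by
            push_cast
            rw [← hB]
            rw [hcas, hcard] at hidt
            have hm0 : (2 * (m : ℝ) + 1) ≠ 0 := by positivity
            have h2 : (2 * (m : ℝ) + 1) * ((n : ℝ) * (2 * (4 * c ^ 2 * inner ℝ y y))) = (2 * (m : ℝ) + 1) * (T * m) := by
              push_cast at hidt
              linear_combination hidt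
            exact mul_left_cancel₀ hm0 h2
          have h2 : (n : ℤ) ∣ ((T * m : ℕ) : ℤ) := ⟨2 * B, by exact_mod_cast h1.symm⟩
          have h4 := le_of_mul h.n_pos (by omega) (Int.natCast_dvd_natCast.1 h2)
          exact h4.trans (Nat.mul_le_mul_left _ (by omega))
      -- the lower bound
      obtain ⟨j, hkj⟩ : ∃ j, k ≠ j := by
        have : Nontrivial (Fin m) := Fin.nontrivial_iff_two_le.2 hm2
        obtain ⟨j, hj⟩ := exists_ne k
        exact ⟨j, hj.symm⟩
      obtain ⟨s, hs, hs2'⟩ : ∃ s : ℤ, (s = 1 ∨ s = -1) ∧ z k = 2 * s := by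
        rcases hzk with h1 | h1
        · exact ⟨1, Or.inl rfl, by rw [h1]; norm_num⟩
        · exact ⟨-1, Or.inr rfl, by rw [h1]; norm_num⟩
      have hx' := h.sat.str _ (F.rt_mem hkj hs (Or.inl rfl : (1 : ℤ) = 1 ∨ (1 : ℤ) = -1)) l h.l_mem 1 (by
        rw [F.co_rt hkj hs (Or.inl rfl), hz k, hz j, hj j hkj.symm, hs2']
        rcases hs with h1 | h1 <;> rw [h1] <;> norm_num)
      rw [Nat.cast_one, one_smul] at hx'
      have hw : ∀ i, cx e c (l - rt e c s 1 k j) i =
          ((if i = k then s else if i = j then -1 else 0 : ℤ) : ℝ) := by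
        intro i
        rw [F.cx_sub_rt, hz i]
        by_cases hi : i = k
        · subst hi
          rw [hs2', if_pos rfl, if_neg hkj.symm, if_pos rfl]
          push_cast; ring
        · by_cases hi' : i = j
          · subst hi'
            rw [hj i hi, if_neg hkj, if_pos rfl, if_neg hi, if_pos rfl]
            norm_num
          · rw [hj i hi, if_neg (Ne.symm hi), if_neg (Ne.symm hi'), if_neg hi, if_neg hi']
            norm_num
      have hsabs : |s| = 1 := by rcases hs with h1 | h1 <;> rw [h1] <;> norm_num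
      have hch := F.choose_of_small h.sat hx' (fun i => if i = k then s else if i = j then -1 else 0) hw
        (fun i => by
          by_cases hi : i = k
          · simp only [hi, if_true, hsabs, le_refl]
          · by_cases hi' : i = j
            · simp [hi', hkj.symm]
            · simp [hi, hi']) (k := 2) (by
          rw [← Finset.add_sum_erase _ _ (Finset.mem_univ k),
            ← Finset.add_sum_erase _ _ (Finset.mem_erase.2 ⟨hkj.symm, Finset.mem_univ j⟩), Finset.sum_eq_zero]
          · simp [hsabs, hkj.symm]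
          · intro i hi
            have h1 := Finset.mem_erase.1 hi
            have h2 := (Finset.mem_erase.1 h1.2).1
            simp [h1.1, h2])
      exact big_two hm hg (hch.trans h.card_le) hdiv
  · -- the highest weight `± e_k ± e_k'`
    have hz1 : ∀ i, (i = k ∨ i = k') → (z i = 1 ∨ z i = -1) := by
      rintro i (rfl | rfl)
      · rcases abs_cases (z i) with h | h <;> omega
      · rcases abs_cases (z i) with h | h <;> omega
    have hzk2 : (z k : ℝ) ^ 2 = 1 := by
      have : (z k) ^ 2 = 1 := by rw [← sq_abs, hk]; norm_num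
      exact_mod_cast this
    have hzk2' : (z k' : ℝ) ^ 2 = 1 := by
      have : (z k') ^ 2 = 1 := by rw [← sq_abs, hk']; norm_num
      exact_mod_cast this
    have hs1 : ∑ i, (z i : ℝ) ^ 2 = 2 := by
      rw [hsumtwo (fun x => (x : ℝ) ^ 2) (by norm_num) z k k' hkk hj, hzk2, hzk2']
      norm_num
    have hl1 : (inner ℝ l l : ℝ) = 2 * c ^ 2 := by
      rw [hln, hs1]; ring
    by_cases hd : d = 2
    · -- the exterior square
      left
      have hcas := F.cas_eq hm2 hlsp z hz
      have habs : |(z k : ℝ)| = 1 := by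
        rw [← Int.cast_abs, hk]; norm_num
      have habs' : |(z k' : ℝ)| = 1 := by
        rw [← Int.cast_abs, hk']; norm_num
      have hs2 : ∑ i, |(z i : ℝ)| = 2 := by
        rw [hsumtwo (fun x => |(x : ℝ)|) (by norm_num) z k k' hkk hj, habs, habs']
        norm_num
      have hle1 : ∀ i, |z i| ≤ 1 := by
        intro i
        by_cases h1 : i = k
        · rw [h1, hk]
        · by_cases h2 : i = k'
          · rw [h2, hk']
          · rw [hj i h1 h2]; norm_num
      have hs3 : ∑ p ∈ (Finset.univ : Finset (Fin m)).offDiag, max |(z p.1 : ℝ)| |(z p.2 : ℝ)| = 4 * m - 6 := by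
        have h01 : ∀ i, |(z i : ℝ)| = 0 ∨ |(z i : ℝ)| = 1 := by
          intro i
          have h1 := hle1 i
          have h2 : |z i| = 0 ∨ |z i| = 1 := by
            have := abs_nonneg (z i)
            omega
          rcases h2 with h2 | h2
          · left; rw [← Int.cast_abs, h2]; norm_num
          · right; rw [← Int.cast_abs, h2]; norm_num
        have h1 : ∑ p ∈ (Finset.univ : Finset (Fin m)).offDiag, max |(z p.1 : ℝ)| |(z p.2 : ℝ)| =
            ∑ p ∈ (Finset.univ : Finset (Fin m)).offDiag,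
              (|(z p.1 : ℝ)| + |(z p.2 : ℝ)| - |(z p.1 : ℝ)| * |(z p.2 : ℝ)|) := by
          refine Finset.sum_congr rfl fun p _ => ?_
          rcases h01 p.1 with h2 | h2 <;> rcases h01 p.2 with h3 | h3 <;> rw [h2, h3] <;> norm_num
        rw [h1, sum_off (fun i j => |(z i : ℝ)| + |(z j : ℝ)| - |(z i : ℝ)| * |(z j : ℝ)|)]
        simp only [Finset.sum_sub_distrib, Finset.sum_add_distrib, Finset.sum_const, Finset.card_univ,
          Fintype.card_fin, nsmul_eq_mul, ← Finset.mul_sum, ← Finset.sum_mul, abs_mul_abs_self]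
        have h4 : ∑ i, (z i : ℝ) * z i = 2 := by
          rw [← hs1]
          exact Finset.sum_congr rfl fun i _ => by ring
        rw [hs2, h4]
        ring
      rw [hs1, hs2, hs3] at hcas
      have hcard := F.card
      rw [if_neg (by omega : d ≠ 0)] at hcard
      have h1 : ((n * (4 * B) : ℤ) : ℝ) = ((T * (2 * m + 1) : ℕ) : ℝ) := by
        push_cast
        rw [← hB]
        rw [hcas, hcard, hd] at hidt
        have hm0 : (m : ℝ) ≠ 0 := by
          have : (9 : ℝ) ≤ m := by exact_mod_cast hm
          linarith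
        have h2 : (m : ℝ) * ((n : ℝ) * (4 * (4 * c ^ 2 * inner ℝ y y))) = m * (T * (2 * m + 1)) := by
          push_cast at hidt
          linear_combination hidt
        exact mul_left_cancel₀ hm0 h2
      have h2 : (n : ℤ) ∣ ((T * (2 * m + 1) : ℕ) : ℤ) := ⟨4 * B, by exact_mod_cast h1.symm⟩
      have h4 := le_of_mul h.n_pos (by omega) (Int.natCast_dvd_natCast.1 h2)
      have hch := F.choose_of_small h.sat h.l_mem z hz hle1 (k := 2) (by
        have h5 : ((∑ i, |z i| : ℤ) : ℝ) = 2 := by push_cast; exact hs2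
        exact_mod_cast h5)
      exact big_two hm hg (hch.trans h.card_le) h4
    · -- adjoint
      right; right; right
      have hd1 : d ≤ 1 := by have := F.le; omega
      refine ⟨?_, fun a ha => ?_⟩
      · have h1 := F.rt_mem hkk (hz1 k (Or.inl rfl)) (hz1 k' (Or.inr rfl))
        have h2 : l = rt e c (z k) (z k') k k' := by
          refine F.eq_of_cx hm2 hlsp (Submodule.subset_span h1) fun i => ?_
          rw [hz i, F.cx_rt]
          by_cases hi : i = k
          · subst hi
            rw [if_pos rfl, if_neg hkk.symm]; ring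
          · by_cases hi' : i = k'
            · subst hi'
              rw [if_neg hkk, if_pos rfl]; ring
            · rw [hj i hi hi', if_neg (Ne.symm hi), if_neg (Ne.symm hi')]
              push_cast; ring
        rw [h2]; exact h1
      · rw [hl1]
        rcases F.norm_root ha with h1 | ⟨_, h1⟩
        · rw [h1]
        · rw [h1]
          have : (d : ℝ) ≤ 1 := by exact_mod_cast hd1
          have h0 : (0 : ℝ) ≤ d := by positivity
          have : (d : ℝ) ^ 2 ≤ 1 := by nlinarith
          nlinarith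

end TF
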