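import Mathlib

/-!
Project TF (MP_b8862a_ag): combinatorics of integral vectors.
-/

set_option linter.unusedSectionVars false

namespace TF

open Finset

section

variable {m : ℕ}

/-- exchange closed families of `k`-sets are everything -/
theorem exch {k : ℕ} (P : Finset (Fin m) → Prop) (S₀ : Finset (Fin m)) (h0 : P S₀) (hk : S₀.card = k)
    (hstep : ∀ S, P S → ∀ i ∈ S, ∀ j, j ∉ S → P (insert j (S.erase i))) :
    ∀ S' : Finset (Fin m), S'.card = k → P S' := by
  intro S' hS'
  have key : ∀ n : ℕ, ∀ S : Finset (Fin m), P S → S.card = k → (S' \ S).card = n → P S' := by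
    intro n
    induction n with
    | zero =>
      intro S hS hc hn
      have h1 : S' ⊆ S := by
        rw [← Finset.sdiff_eq_empty_iff_subset]
        exact Finset.card_eq_zero.1 hn
      have h2 : S' = S := Finset.eq_of_subset_of_card_le h1 (by rw [hc, hS'])
      rw [h2]; exact hS
    | succ n ih =>
      intro S hS hc hn
      have h1 : (S' \ S).Nonempty := by rw [← Finset.card_pos, hn]; omega
      obtain ⟨j, hj⟩ := h1
      have hj' := Finset.mem_sdiff.1 hj
      have h2 : (S \ S').card = (S' \ S).card := by
        have h3 := Finset.card_sdiff_add_card_inter S S'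
        have h4 := Finset.card_sdiff_add_card_inter S' S
        rw [Finset.inter_comm] at h4
        omega
      have h3 : (S \ S').Nonempty := by rw [← Finset.card_pos, h2, hn]; omega
      obtain ⟨i, hi⟩ := h3
      have hi' := Finset.mem_sdiff.1 hi
      have hij : i ≠ j := by
        rintro rfl
        exact hj'.2 hi'.1
      have hjn : j ∉ S.erase i := fun h => hj'.2 (Finset.mem_of_mem_erase h)
      refine ih (insert j (S.erase i)) (hstep S hS i hi'.1 j hj'.2) ?_ ?_
      · rw [Finset.card_insert_of_notMem hjn, Finset.card_erase_of_mem hi'.1, hc]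
        have : 0 < S.card := Finset.card_pos.2 ⟨i, hi'.1⟩
        omega
      · have h5 : S' \ insert j (S.erase i) = (S' \ S).erase j := by
          ext a
          simp only [Finset.mem_sdiff, Finset.mem_insert, Finset.mem_erase]
          constructor
          · rintro ⟨ha, hb⟩
            push Not at hb
            refine ⟨hb.1, ha, fun hS2 => ?_⟩
            by_cases hai : a = i
            · rw [hai] at ha; exact hi'.2 ha
            · exact (hb.2 hai) hS2
          · rintro ⟨ha, hb, hc2⟩
            refine ⟨hb, ?_⟩
            push Not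
            exact ⟨ha, fun _ => hc2⟩
        rw [h5, Finset.card_erase_of_mem hj, hn]
        rfl
  exact key _ S₀ h0 hk rfl

theorem choose_le {α : Type*} (X : Finset α) (k : ℕ) (R : α → Finset (Fin m) → Prop)
    (hR : ∀ x S S', R x S → R x S' → S = S') (h : ∀ S : Finset (Fin m), S.card = k → ∃ x ∈ X, R x S) :
    m.choose k ≤ X.card := by
  classical
  have h1 : ((Finset.univ : Finset (Fin m)).powersetCard k).card = m.choose k := by
    rw [Finset.card_powersetCard, Finset.card_univ, Fintype.card_fin]
  rw [← h1]
  refine Finset.card_le_card_of_forall_subsingleton (fun S x => R x S) (fun S hS => ?_) (fun x _ => ?_)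
  · exact h S (Finset.mem_powersetCard.1 hS).2
  · intro S hS S' hS'
    exact hR x _ _ hS.2 hS'.2

theorem sum_two {F G : Fin m → ℤ} {i j : Fin m} (hij : i ≠ j) (h : ∀ k, k ≠ i → k ≠ j → F k = G k) :
    ∑ k, F k = ∑ k, G k - G i - G j + F i + F j := by
  have h1 : ∀ H : Fin m → ℤ, ∑ k, H k = H i + (H j + ∑ k ∈ (Finset.univ.erase i).erase j, H k) := by
    intro H
    rw [← Finset.add_sum_erase _ _ (Finset.mem_univ i)]
    congr 1
    rw [← Finset.add_sum_erase _ _ (Finset.mem_erase.2 ⟨hij.symm, Finset.mem_univ j⟩)]
  rw [h1 F, h1 G]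
  have h2 : ∑ k ∈ (Finset.univ.erase i).erase j, F k = ∑ k ∈ (Finset.univ.erase i).erase j, G k := by
    refine Finset.sum_congr rfl fun k hk => ?_
    have h3 := Finset.mem_erase.1 hk
    exact h k (Finset.mem_erase.1 h3.2).1 h3.1
  rw [h2]
  ring

/-- modification of the entries `i` and `j` -/
def md (z : Fin m → ℤ) (i j : Fin m) (s t : ℤ) : Fin m → ℤ :=
  fun k => if k = i then z i - s else if k = j then z j - t else z k

theorem md_i (z : Fin m → ℤ) (i j : Fin m) (s t : ℤ) : md z i j s t i = z i - s := by
  simp [md]

theorem md_j (z : Fin m → ℤ) {i j : Fin m} (hij : i ≠ j) (s t : ℤ) : md z i j s t j = z j - t := by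
  simp [md, hij.symm]

theorem md_k (z : Fin m → ℤ) {i j k : Fin m} (hi : k ≠ i) (hj : k ≠ j) (s t : ℤ) : md z i j s t k = z k := by
  simp [md, hi, hj]

theorem sum_md (f : ℤ → ℤ) (z : Fin m → ℤ) {i j : Fin m} (hij : i ≠ j) (s t : ℤ) :
    ∑ k, f (md z i j s t k) = ∑ k, f (z k) - f (z i) - f (z j) + f (z i - s) + f (z j - t) := by
  rw [sum_two hij (F := fun k => f (md z i j s t k)) (G := fun k => f (z k))
    (fun k hi hj => by rw [md_k z hi hj])]
  simp only [md_i, md_j z hij]

/-- squares and absolute values -/
theorem core_bcd (hm : 5 ≤ m) (P : (Fin m → ℤ) → Prop)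
    (hP : ∀ z, P z → ∀ i j, i ≠ j → ∀ s t : ℤ, (s = 1 ∨ s = -1) → (t = 1 ∨ t = -1) → 1 ≤ s * z i + t * z j →
      P (md z i j s t)) (z : Fin m → ℤ) (hz : P z) (h3 : 3 ≤ ∑ i, |z i|) :
    ∃ w, P w ∧ (∀ i, |w i| ≤ 1) ∧ (∑ i, |w i| = 3 ∨ ∑ i, |w i| = 4) := by
  have key : ∀ n : ℕ, ∀ z, P z → 3 ≤ ∑ i, |z i| → (∑ i, z i ^ 2).toNat = n →
      ∃ w, P w ∧ (∀ i, |w i| ≤ 1) ∧ (∑ i, |w i| = 3 ∨ ∑ i, |w i| = 4) := by
    intro n
    induction n using Nat.strong_induction_on with
    | _ n ih =>
      intro z hz h3 hn
      have hsg : ∀ x : ℤ, ∃ s : ℤ, (s = 1 ∨ s = -1) ∧ s * x = |x| ∧ (1 ≤ |x| → |x - s| = |x| - 1) := by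
        intro x
        rcases le_or_gt 0 x with hx | hx
        · refine ⟨1, Or.inl rfl, by rw [abs_of_nonneg hx, one_mul], fun h => ?_⟩
          rw [abs_of_nonneg hx] at h ⊢
          rw [abs_of_nonneg (by linarith)]
        · refine ⟨-1, Or.inr rfl, by rw [abs_of_neg hx]; ring, fun h => ?_⟩
          rw [abs_of_neg hx] at h ⊢
          rw [abs_of_nonpos (by linarith)]
          ring
      have hnn : ∀ z : Fin m → ℤ, 0 ≤ ∑ i, z i ^ 2 := fun z => Finset.sum_nonneg fun i _ => sq_nonneg _
      -- one step
      have hone : ∀ i j, i ≠ j → ∀ s t : ℤ, (s = 1 ∨ s = -1) → (t = 1 ∨ t = -1) → 1 ≤ s * z i + t * z j →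
          3 ≤ ∑ k, |z k| - |z i| - |z j| + |z i - s| + |z j - t| →
          (z i - s) ^ 2 + (z j - t) ^ 2 < z i ^ 2 + z j ^ 2 →
          ∃ w, P w ∧ (∀ i, |w i| ≤ 1) ∧ (∑ i, |w i| = 3 ∨ ∑ i, |w i| = 4) := by
        intro i j hij s t hs ht h1 h2 h4
        have h5 := sum_md (fun x => |x|) z hij s t
        have h6 := sum_md (fun x => x ^ 2) z hij s t
        beta_reduce at h5 h6
        refine ih (∑ k, (md z i j s t k) ^ 2).toNat ?_ _ (hP z hz i j hij s t hs ht h1) (by rw [h5]; exact h2) rfl
        have h7 : ∑ k, (md z i j s t k) ^ 2 < ∑ k, z k ^ 2 := by rw [h6]; linarith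
        have h8 := hnn z
        have h9 := hnn (md z i j s t)
        omega
      by_cases hb : ∃ i, 2 ≤ |z i|
      · obtain ⟨i, hi⟩ := hb
        obtain ⟨s, hs, hs1, hs2⟩ := hsg (z i)
        have hs3 := hs2 (by omega)
        have hsq : (z i - s) ^ 2 = (|z i| - 1) ^ 2 := by rw [← hs3, sq_abs]
        by_cases h0 : ∃ j, z j = 0
        · obtain ⟨j, hj⟩ := h0
          have hij : i ≠ j := by
            rintro rfl
            rw [hj] at hi
            norm_num at hi
          refine hone i j hij s 1 hs (Or.inl rfl) (by rw [hj, hs1]; omega) ?_ ?_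
          · rw [hs3, hj]; norm_num; linarith
          · rw [hsq, hj, ← sq_abs (z i)]; nlinarith
        · push Not at h0
          obtain ⟨j, hij⟩ : ∃ j, i ≠ j := by
            have : Nontrivial (Fin m) := Fin.nontrivial_iff_two_le.2 (by omega)
            obtain ⟨j, hj⟩ := exists_ne i
            exact ⟨j, hj.symm⟩
          obtain ⟨t, ht, ht1, ht2⟩ := hsg (z j)
          have hj1 : 1 ≤ |z j| := Int.one_le_abs (h0 j)
          have ht3 := ht2 hj1
          have htq : (z j - t) ^ 2 = (|z j| - 1) ^ 2 := by rw [← ht3, sq_abs]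
          have hbig : (m : ℤ) + 1 ≤ ∑ k, |z k| := by
            have h1 : ∑ k : Fin m, (if k = i then (2 : ℤ) else 1) ≤ ∑ k, |z k| := by
              refine Finset.sum_le_sum fun k _ => ?_
              split_ifs with hk
              · rw [hk]; exact hi
              · exact Int.one_le_abs (h0 k)
            have h2 : ∑ k : Fin m, (if k = i then (2 : ℤ) else 1) = m + 1 := by
              have h5 : ∀ k : Fin m, (if k = i then (2 : ℤ) else 1) = 1 + (if k = i then 1 else 0) := by
                intro k; split_ifs <;> norm_num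
              simp only [h5, Finset.sum_add_distrib, Finset.sum_const, Finset.card_univ, Fintype.card_fin,
                Finset.sum_ite_eq', Finset.mem_univ, if_true]
              simp
            linarith
          refine hone i j hij s t hs ht (by rw [hs1, ht1]; omega) ?_ ?_
          · rw [hs3, ht3]
            have : (5 : ℤ) ≤ m := by exact_mod_cast hm
            linarith
          · rw [hsq, htq, ← sq_abs (z i), ← sq_abs (z j)]; nlinarith
      · push Not at hb
        have hb' : ∀ i, |z i| ≤ 1 := fun i => by have := hb i; omega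
        by_cases h5 : 5 ≤ ∑ i, |z i|
        · -- two nonzero entries
          have h6 : ∃ i, z i ≠ 0 := by
            by_contra hc
            push Not at hc
            simp only [hc, abs_zero, Finset.sum_const_zero] at h5
            omega
          obtain ⟨i, hi⟩ := h6
          have h7 : ∃ j, j ≠ i ∧ z j ≠ 0 := by
            by_contra hc
            push Not at hc
            have h8 : ∑ k, |z k| = |z i| := by
              refine Finset.sum_eq_single i (fun k _ hk => by rw [hc k hk, abs_zero]) (fun h => ?_)
              exact absurd (Finset.mem_univ i) h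
            have := hb' i
            omega
          obtain ⟨j, hji, hj⟩ := h7
          obtain ⟨s, hs, hs1, hs2⟩ := hsg (z i)
          obtain ⟨t, ht, ht1, ht2⟩ := hsg (z j)
          have hi1 : 1 ≤ |z i| := Int.one_le_abs hi
          have hj1 : 1 ≤ |z j| := Int.one_le_abs hj
          have hs3 := hs2 hi1
          have ht3 := ht2 hj1
          have hsq : (z i - s) ^ 2 = (|z i| - 1) ^ 2 := by rw [← hs3, sq_abs]
          have htq : (z j - t) ^ 2 = (|z j| - 1) ^ 2 := by rw [← ht3, sq_abs]
          refine hone i j hji.symm s t hs ht (by rw [hs1, ht1]; omega) ?_ ?_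
          · rw [hs3, ht3]
            linarith
          · rw [hsq, htq, ← sq_abs (z i), ← sq_abs (z j)]; nlinarith
        · exact ⟨z, hz, hb', by omega⟩
  exact key _ z hz h3 rfl

/-- the same for `A_(m-1)` -/
theorem core_a (hm : 5 ≤ m) (P : (Fin m → ℤ) → Prop) (h0 : ∀ z, P z → ∑ i, z i = 0)
    (hP : ∀ z, P z → ∀ i j, i ≠ j → 1 ≤ z i - z j → P (md z i j 1 (-1))) (z : Fin m → ℤ) (hz : P z)
    (h3 : 3 ≤ ∑ i, |z i|) :
    ∃ w, P w ∧ (∀ i, |w i| ≤ 1) ∧ ∑ i, |w i| = 4 := by
  have key : ∀ n : ℕ, ∀ z, P z → 3 ≤ ∑ i, |z i| → (∑ i, z i ^ 2).toNat = n →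
      ∃ w, P w ∧ (∀ i, |w i| ≤ 1) ∧ ∑ i, |w i| = 4 := by
    intro n
    induction n using Nat.strong_induction_on with
    | _ n ih =>
      intro z hz h3 hn
      have hnn : ∀ z : Fin m → ℤ, 0 ≤ ∑ i, z i ^ 2 := fun z => Finset.sum_nonneg fun i _ => sq_nonneg _
      have hone : ∀ i j, i ≠ j → 1 ≤ z i - z j →
          3 ≤ ∑ k, |z k| - |z i| - |z j| + |z i - 1| + |z j + 1| →
          (z i - 1) ^ 2 + (z j + 1) ^ 2 < z i ^ 2 + z j ^ 2 →
          ∃ w, P w ∧ (∀ i, |w i| ≤ 1) ∧ ∑ i, |w i| = 4 := by
        intro i j hij h1 h2 h4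
        have h5 := sum_md (fun x => |x|) z hij 1 (-1)
        have h6 := sum_md (fun x => x ^ 2) z hij 1 (-1)
        simp only [sub_neg_eq_add] at h5 h6
        refine ih (∑ k, (md z i j 1 (-1) k) ^ 2).toNat ?_ _ (hP z hz i j hij h1) (by rw [h5]; exact h2) rfl
        have h7 : ∑ k, (md z i j 1 (-1) k) ^ 2 < ∑ k, z k ^ 2 := by rw [h6]; linarith
        have h8 := hnn z
        have h9 := hnn (md z i j 1 (-1))
        omega
      have hsum := h0 z hz
      -- parity
      have hpar : ∃ q : ℤ, ∑ i, |z i| = 2 * q := by
        have h1 : ∀ x : ℤ, ∃ q : ℤ, |x| - x = 2 * q := by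
          intro x
          rcases le_or_gt 0 x with hx | hx
          · exact ⟨0, by rw [abs_of_nonneg hx]; ring⟩
          · exact ⟨-x, by rw [abs_of_neg hx]; ring⟩
        choose q hq using h1
        refine ⟨∑ i, q (z i), ?_⟩
        rw [Finset.mul_sum]
        have : ∑ i, |z i| = ∑ i, (|z i| - z i) := by rw [Finset.sum_sub_distrib, hsum, sub_zero]
        rw [this]
        exact Finset.sum_congr rfl fun i _ => hq _
      obtain ⟨q, hq⟩ := hpar
      have h4 : 4 ≤ ∑ i, |z i| := by omega
      by_cases hb : ∃ i, 2 ≤ |z i|
      · obtain ⟨i, hi⟩ := hb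
        by_cases hz0 : ∃ j, z j = 0
        · obtain ⟨j, hj⟩ := hz0
          have hij : i ≠ j := by
            rintro rfl
            rw [hj] at hi
            norm_num at hi
          rcases le_or_gt 0 (z i) with hi0 | hi0
          · rw [abs_of_nonneg hi0] at hi
            refine hone i j hij (by omega) ?_ ?_
            · rw [hj, abs_of_nonneg hi0, abs_of_nonneg (by omega : (0:ℤ) ≤ z i - 1)]
              norm_num
              linarith
            · rw [hj]; nlinarith
          · rw [abs_of_neg hi0] at hi
            refine hone j i hij.symm (by omega) ?_ ?_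
            · rw [hj, abs_of_neg hi0, abs_of_nonpos (by omega : z i + 1 ≤ (0:ℤ))]
              norm_num
              linarith
            · rw [hj]; nlinarith
        · push Not at hz0
          have hbig : (m : ℤ) + 1 ≤ ∑ k, |z k| := by
            have h1 : ∑ k : Fin m, (if k = i then (2 : ℤ) else 1) ≤ ∑ k, |z k| := by
              refine Finset.sum_le_sum fun k _ => ?_
              split_ifs with hk
              · rw [hk]; exact hi
              · exact Int.one_le_abs (hz0 k)
            have h2 : ∑ k : Fin m, (if k = i then (2 : ℤ) else 1) = m + 1 := by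
              have h5 : ∀ k : Fin m, (if k = i then (2 : ℤ) else 1) = 1 + (if k = i then 1 else 0) := by
                intro k; split_ifs <;> norm_num
              simp only [h5, Finset.sum_add_distrib, Finset.sum_const, Finset.card_univ, Fintype.card_fin,
                Finset.sum_ite_eq', Finset.mem_univ, if_true]
              simp
            linarith
          have hm' : (5 : ℤ) ≤ m := by exact_mod_cast hm
          rcases le_or_gt 0 (z i) with hi0 | hi0
          · rw [abs_of_nonneg hi0] at hi
            -- a negative entry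
            obtain ⟨j, hj⟩ : ∃ j, z j < 0 := by
              by_contra hc
              push Not at hc
              have := Finset.sum_pos' (fun k _ => hc k) ⟨i, Finset.mem_univ i, by omega⟩
              omega
            have hij : i ≠ j := by rintro rfl; omega
            refine hone i j hij (by omega) ?_ ?_
            · rw [abs_of_nonneg hi0, abs_of_nonneg (by omega : (0:ℤ) ≤ z i - 1), abs_of_neg hj,
                abs_of_nonpos (by omega : z j + 1 ≤ (0:ℤ))]
              linarith
            · nlinarith
          · rw [abs_of_neg hi0] at hi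
            obtain ⟨j, hj⟩ : ∃ j, 0 < z j := by
              by_contra hc
              push Not at hc
              have h5 : 0 < ∑ k, -z k :=
                Finset.sum_pos' (fun k _ => by have := hc k; omega) ⟨i, Finset.mem_univ i, by omega⟩
              rw [Finset.sum_neg_distrib] at h5
              omega
            have hij : j ≠ i := by rintro rfl; omega
            refine hone j i hij (by omega) ?_ ?_
            · rw [abs_of_neg hi0, abs_of_nonpos (by omega : z i + 1 ≤ (0:ℤ)), abs_of_pos hj,
                abs_of_nonneg (by omega : (0:ℤ) ≤ z j - 1)]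
              linarith
            · nlinarith
      · push Not at hb
        have hb' : ∀ i, |z i| ≤ 1 := fun i => by have := hb i; omega
        by_cases h5 : 5 ≤ ∑ i, |z i|
        · obtain ⟨i, hi⟩ : ∃ i, 0 < z i := by
            by_contra hc
            push Not at hc
            have h6 : ∀ k, z k = 0 := by
              by_contra h7
              push Not at h7
              obtain ⟨k, hk⟩ := h7
              have h8 : 0 < ∑ k, -z k :=
                Finset.sum_pos' (fun k _ => by have := hc k; omega)
                  ⟨k, Finset.mem_univ k, by have := hc k; omega⟩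
              rw [Finset.sum_neg_distrib] at h8
              omega
            simp only [h6, abs_zero, Finset.sum_const_zero] at h5
            omega
          obtain ⟨j, hj⟩ : ∃ j, z j < 0 := by
            by_contra hc
            push Not at hc
            have := Finset.sum_pos' (fun k _ => hc k) ⟨i, Finset.mem_univ i, hi⟩
            omega
          have hij : i ≠ j := by rintro rfl; omega
          have hi1 := hb' i
          have hj1 := hb' j
          rw [abs_of_pos hi] at hi1
          rw [abs_of_neg hj] at hj1
          have hi2 : z i = 1 := by omega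
          have hj2 : z j = -1 := by omega
          refine hone i j hij (by omega) ?_ ?_
          · rw [hi2, hj2]
            norm_num
            omega
          · rw [hi2, hj2]; norm_num
        · exact ⟨z, hz, hb', by omega⟩
  exact key _ z hz h3 rfl

end

end TF
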