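import Pool.Agent.Helper27.TF.Defs
import Pool.Agent.Helper27.TF.Comb

/-!
Project TF (MP_b8862a_ag): sets of weights in the coordinates of `B_m`, `C_m`, `D_m`.
-/

set_option linter.unusedSectionVars false

open Module PF

namespace TF

variable {E : Type*} [NormedAddCommGroup E] [InnerProductSpace ℝ E] {Φ X : Finset E}

/-- coordinates -/
noncomputable def cx {m : ℕ} (e : Fin m → E) (c : ℝ) (x : E) (i : Fin m) : ℝ := inner ℝ x (e i) / c

section

variable {m : ℕ} {e : Fin m → E} {c : ℝ} {d : ℕ}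

theorem Fr.inner_e (F : Fr Φ m e c d) (i j : Fin m) : (inner ℝ (e i) (e j) : ℝ) = if i = j then 1 else 0 :=
  orthonormal_iff_ite.1 F.on i j

/-- the root `c (s e_i + t e_j)` -/
noncomputable def rt (e : Fin m → E) (c : ℝ) (s t : ℤ) (i j : Fin m) : E :=
  c • ((s : ℝ) • e i + (t : ℝ) • e j)

theorem Fr.rt_mem (F : Fr Φ m e c d) {i j : Fin m} (hij : i ≠ j) {s t : ℤ} (hs : s = 1 ∨ s = -1)
    (ht : t = 1 ∨ t = -1) : rt e c s t i j ∈ Φ := by
  rw [F.mem]
  left
  rcases hs with rfl | rfl <;> rcases ht with rfl | rfl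
  · exact ⟨i, j, hij, Or.inl (by simp [rt])⟩
  · exact ⟨i, j, hij, Or.inr (Or.inl (by simp [rt, sub_eq_add_neg]))⟩
  · refine ⟨j, i, hij.symm, Or.inr (Or.inl ?_)⟩
    simp [rt, sub_eq_add_neg, add_comm]
  · refine ⟨i, j, hij, Or.inr (Or.inr ?_)⟩
    simp only [rt, Int.cast_neg, Int.cast_one, neg_smul, one_smul]
    rw [← smul_neg, neg_add]

theorem inner_rt (x : E) (s t : ℤ) (i j : Fin m) :
    (inner ℝ x (rt e c s t i j) : ℝ) = c * (s * inner ℝ x (e i) + t * inner ℝ x (e j)) := by
  simp only [rt, inner_smul_right, inner_add_right]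

theorem Fr.inner_rt_e (F : Fr Φ m e c d) (s t : ℤ) (i j k : Fin m) :
    (inner ℝ (rt e c s t i j) (e k) : ℝ) = c * (s * (if i = k then 1 else 0) + t * (if j = k then 1 else 0)) := by
  simp only [rt, inner_smul_left, inner_add_left, F.inner_e, conj_trivial]

theorem Fr.inner_rt_self (F : Fr Φ m e c d) {i j : Fin m} (hij : i ≠ j) {s t : ℤ} (hs : s = 1 ∨ s = -1)
    (ht : t = 1 ∨ t = -1) : (inner ℝ (rt e c s t i j) (rt e c s t i j) : ℝ) = 2 * c ^ 2 := by
  rw [inner_rt, F.inner_rt_e, F.inner_rt_e, if_pos rfl, if_neg hij.symm, if_neg hij, if_pos rfl]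
  have h1 : (s : ℝ) * s = 1 := by rcases hs with rfl | rfl <;> norm_num
  have h2 : (t : ℝ) * t = 1 := by rcases ht with rfl | rfl <;> norm_num
  linear_combination c ^ 2 * h1 + c ^ 2 * h2

theorem Fr.co_rt (F : Fr Φ m e c d) {i j : Fin m} (hij : i ≠ j) {s t : ℤ} (hs : s = 1 ∨ s = -1)
    (ht : t = 1 ∨ t = -1) (x : E) : co (rt e c s t i j) x = s * cx e c x i + t * cx e c x j := by
  unfold co cx
  rw [F.inner_rt_self hij hs ht, inner_rt]
  have := F.pos.ne'
  field_simp

theorem Fr.cx_sub_rt (F : Fr Φ m e c d) (x : E) (s t : ℤ) (i j k : Fin m) :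
    cx e c (x - rt e c s t i j) k =
      cx e c x k - (s * (if i = k then 1 else 0) + t * (if j = k then 1 else 0)) := by
  unfold cx
  rw [inner_sub_left, F.inner_rt_e]
  have := F.pos.ne'
  field_simp

theorem Fr.cx_sub_smul (F : Fr Φ m e c d) (x : E) (r : ℝ) (s t : ℤ) (i j k : Fin m) :
    cx e c (x - r • rt e c s t i j) k =
      cx e c x k - r * (s * (if i = k then 1 else 0) + t * (if j = k then 1 else 0)) := by
  unfold cx
  rw [inner_sub_left, inner_smul_left, F.inner_rt_e]
  have := F.pos.ne'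
  simp only [conj_trivial]
  field_simp

theorem Sat.refl27 (hX : Sat Φ X) {a x : E} (ha : a ∈ Φ) (hna : -a ∈ Φ) (hx : x ∈ X) : x - co a x • a ∈ X := by
  obtain ⟨k, hk⟩ := hX.int a ha x hx
  rcases le_or_gt 0 k with h0 | h0
  · have h2 : ((k.toNat : ℕ) : ℝ) = k := by
      have : ((k.toNat : ℤ) : ℝ) = k := by rw [Int.toNat_of_nonneg h0]
      rw [Int.cast_natCast] at this
      exact this
    have h1 := hX.str a ha x hx k.toNat (by rw [hk, h2])
    rw [h2] at h1
    rw [hk]; exact h1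
  · have h3 : ((-k).toNat : ℤ) = -k := Int.toNat_of_nonneg (by omega)
    have h2 : (((-k).toNat : ℕ) : ℝ) = -k := by
      have : (((-k).toNat : ℤ) : ℝ) = ((-k : ℤ) : ℝ) := by rw [h3]
      rw [Int.cast_natCast] at this
      rw [this]; push_cast; rfl
    have h1 := hX.str (-a) hna x hx (-k).toNat (by rw [co_neg_left, hk, h2])
    rw [h2, smul_neg, neg_smul, neg_neg] at h1
    rw [hk]; exact h1

/-- sign changes of two coordinates -/
theorem Fr.flip (F : Fr Φ m e c d) (hX : Sat Φ X) {x : E} (hx : x ∈ X) {i j : Fin m} (hij : i ≠ j) :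
    ∃ y ∈ X, ∀ k, cx e c y k = if k = i ∨ k = j then -cx e c x k else cx e c x k := by
  have h1 := Sat.refl27 hX (F.rt_mem hij (Or.inl rfl) (Or.inl rfl))
    (by
      have := F.rt_mem hij (s := -1) (t := -1) (Or.inr rfl) (Or.inr rfl)
      have h2 : -rt e c 1 1 i j = rt e c (-1) (-1) i j := by
        simp only [rt, Int.cast_neg, Int.cast_one, neg_smul, one_smul]
        rw [← smul_neg, neg_add]
      rw [h2]; exact this) hx
  rw [F.co_rt hij (Or.inl rfl) (Or.inl rfl)] at h1
  set x1 := x - (((1 : ℤ) : ℝ) * cx e c x i + ((1 : ℤ) : ℝ) * cx e c x j) • rt e c 1 1 i j with hx1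
  have hc1 : ∀ k, cx e c x1 k = cx e c x k - (cx e c x i + cx e c x j) *
      ((if i = k then 1 else 0) + (if j = k then 1 else 0)) := by
    intro k
    rw [hx1, F.cx_sub_smul]
    push_cast
    ring
  have h3 := Sat.refl27 hX (F.rt_mem hij (s := 1) (t := -1) (Or.inl rfl) (Or.inr rfl))
    (by
      have := F.rt_mem hij (s := -1) (t := 1) (Or.inr rfl) (Or.inl rfl)
      have h2 : -rt e c 1 (-1) i j = rt e c (-1) 1 i j := by
        simp only [rt, Int.cast_neg, Int.cast_one, neg_smul, one_smul]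
        rw [← smul_neg, neg_add, neg_neg]
      rw [h2]; exact this) h1
  rw [F.co_rt hij (Or.inl rfl) (Or.inr rfl)] at h3
  refine ⟨_, h3, fun k => ?_⟩
  rw [F.cx_sub_smul, hc1 k, hc1 i, hc1 j, if_pos rfl, if_neg hij.symm, if_neg hij, if_pos rfl]
  push_cast
  by_cases hki : k = i
  · subst hki
    rw [if_pos rfl, if_neg hij.symm, if_pos (Or.inl rfl)]
    ring
  · by_cases hkj : k = j
    · subst hkj
      rw [if_neg (Ne.symm hki), if_pos rfl, if_pos (Or.inr rfl)]
      ring
    · rw [if_neg (Ne.symm hki), if_neg (Ne.symm hkj), if_neg (by tauto)]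
      ring

theorem Fr.int_add (F : Fr Φ m e c d) (hX : Sat Φ X) {x : E} (hx : x ∈ X) {i j : Fin m} (hij : i ≠ j) :
    ∃ k : ℤ, cx e c x i + cx e c x j = k := by
  obtain ⟨k, hk⟩ := hX.int _ (F.rt_mem hij (Or.inl rfl) (Or.inl rfl)) x hx
  rw [F.co_rt hij (Or.inl rfl) (Or.inl rfl)] at hk
  exact ⟨k, by rw [← hk]; push_cast; ring⟩

theorem Fr.int_sub (F : Fr Φ m e c d) (hX : Sat Φ X) {x : E} (hx : x ∈ X) {i j : Fin m} (hij : i ≠ j) :
    ∃ k : ℤ, cx e c x i - cx e c x j = k := by
  obtain ⟨k, hk⟩ := hX.int _ (F.rt_mem hij (s := 1) (t := -1) (Or.inl rfl) (Or.inr rfl)) x hx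
  rw [F.co_rt hij (Or.inl rfl) (Or.inr rfl)] at hk
  exact ⟨k, by rw [← hk]; push_cast; ring⟩

/-- the coordinates are all integral or all half odd -/
theorem Fr.int_or (F : Fr Φ m e c d) (hX : Sat Φ X) (hm : 2 ≤ m) {x : E} (hx : x ∈ X) :
    (∃ z : Fin m → ℤ, ∀ i, cx e c x i = z i) ∨ (∃ z : Fin m → ℤ, ∀ i, cx e c x i = z i + 1 / 2) := by
  let i0 : Fin m := ⟨0, by omega⟩
  let i1 : Fin m := ⟨1, by omega⟩
  have h01 : i0 ≠ i1 := by
    intro h
    have := congrArg Fin.val h
    simp [i0, i1] at this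
  obtain ⟨a, ha⟩ := F.int_add hX hx h01
  obtain ⟨b, hb⟩ := F.int_sub hX hx h01
  have h2 : 2 * cx e c x i0 = ((a + b : ℤ) : ℝ) := by push_cast; linarith
  have hd : ∀ i, ∃ k : ℤ, cx e c x i - cx e c x i0 = k := by
    intro i
    by_cases h : i = i0
    · exact ⟨0, by rw [h]; simp⟩
    · exact F.int_sub hX hx h
  choose z hz using hd
  rcases Int.even_or_odd' (a + b) with ⟨q, hq | hq⟩
  · left
    refine ⟨fun i => z i + q, fun i => ?_⟩
    have h3 : cx e c x i0 = q := by rw [hq] at h2; push_cast at h2; linarith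
    have := hz i
    push_cast
    linarith
  · right
    refine ⟨fun i => z i + q, fun i => ?_⟩
    have h3 : cx e c x i0 = q + 1 / 2 := by rw [hq] at h2; push_cast at h2; linarith
    have := hz i
    push_cast
    linarith

/-- four sign changes -/
theorem Fr.choose_of_half (F : Fr Φ m e c d) (hX : Sat Φ X) (hm : 4 ≤ m) {x : E} (hx : x ∈ X)
    (h0 : ∀ i, cx e c x i ≠ 0) : m.choose 4 ≤ X.card := by
  classical
  let i0 : Fin m := ⟨0, by omega⟩
  let i1 : Fin m := ⟨1, by omega⟩
  let i2 : Fin m := ⟨2, by omega⟩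
  let i3 : Fin m := ⟨3, by omega⟩
  have h01 : i0 ≠ i1 := by simp [i0, i1, Fin.ext_iff]
  have h02 : i0 ≠ i2 := by simp [i0, i2, Fin.ext_iff]
  have h03 : i0 ≠ i3 := by simp [i0, i3, Fin.ext_iff]
  have h12 : i1 ≠ i2 := by simp [i1, i2, Fin.ext_iff]
  have h13 : i1 ≠ i3 := by simp [i1, i3, Fin.ext_iff]
  have h23 : i2 ≠ i3 := by simp [i2, i3, Fin.ext_iff]
  let P : Finset (Fin m) → Prop := fun S => ∃ y ∈ X, ∀ k, cx e c y k = if k ∈ S then -cx e c x k else cx e c x k
  have hstep : ∀ S, P S → ∀ i ∈ S, ∀ j, j ∉ S → P (insert j (S.erase i)) := by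
    rintro S ⟨y, hy, hyc⟩ i hi j hj
    have hij : i ≠ j := by rintro rfl; exact hj hi
    obtain ⟨y', hy', hyc'⟩ := F.flip hX hy hij
    refine ⟨y', hy', fun k => ?_⟩
    rw [hyc' k, hyc k]
    by_cases hki : k = i
    · subst hki
      rw [if_pos (Or.inl rfl), if_pos hi, if_neg, neg_neg]
      simp [hij]
    · by_cases hkj : k = j
      · subst hkj
        rw [if_pos (Or.inr rfl), if_neg hj, if_pos (Finset.mem_insert_self _ _)]
      · rw [if_neg (by tauto)]
        have : k ∈ insert j (S.erase i) ↔ k ∈ S := by simp [hki, hkj]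
        simp only [this]
  have hstart : P {i0, i1, i2, i3} := by
    obtain ⟨y, hy, hyc⟩ := F.flip hX hx h01
    obtain ⟨y', hy', hyc'⟩ := F.flip hX hy h23
    refine ⟨y', hy', fun k => ?_⟩
    rw [hyc' k, hyc k]
    simp only [Finset.mem_insert, Finset.mem_singleton]
    by_cases hk0 : k = i0
    · subst hk0; simp [h02, h03]
    · by_cases hk1 : k = i1
      · subst hk1; simp [h12, h13]
      · by_cases hk2 : k = i2
        · subst hk2; simp [h02.symm, h12.symm]
        · by_cases hk3 : k = i3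
          · subst hk3; simp [h03.symm, h13.symm]
          · simp [hk0, hk1, hk2, hk3]
  have hcard : ({i0, i1, i2, i3} : Finset (Fin m)).card = 4 := by
    rw [Finset.card_insert_of_notMem (by simp [h01, h02, h03]),
      Finset.card_insert_of_notMem (by simp [h12, h13]), Finset.card_insert_of_notMem (by simp [h23]),
      Finset.card_singleton]
  have hall := exch P _ hstart hcard hstep
  refine choose_le X 4 (fun y S => ∀ k, cx e c y k = if k ∈ S then -cx e c x k else cx e c x k) ?_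
    (fun S hS => hall S hS)
  intro y S S' h1 h2
  ext k
  have h3 := h1 k
  have h4 := h2 k
  rw [h3] at h4
  have h5 := h0 k
  by_cases hk : k ∈ S <;> by_cases hk' : k ∈ S' <;> simp only [hk, hk', if_true, if_false] at h4 ⊢
  · exact absurd (by linarith) h5
  · exact absurd (by linarith) h5

/-- the support of a small integral weight is arbitrary -/
theorem Fr.choose_of_small (F : Fr Φ m e c d) (hX : Sat Φ X) {x : E} (hx : x ∈ X) (w : Fin m → ℤ)
    (hw : ∀ i, cx e c x i = w i) (h1 : ∀ i, |w i| ≤ 1) {k : ℕ} (hk : ∑ i, |w i| = k) :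
    m.choose k ≤ X.card := by
  classical
  let P : Finset (Fin m) → Prop := fun S => ∃ x ∈ X, ∃ w : Fin m → ℤ, (∀ i, cx e c x i = w i) ∧
    (∀ i, |w i| ≤ 1) ∧ ∀ i, i ∈ S ↔ w i ≠ 0
  have hstep : ∀ S, P S → ∀ i ∈ S, ∀ j, j ∉ S → P (insert j (S.erase i)) := by
    rintro S ⟨x, hx, w, hw, h1, hS⟩ i hi j hj
    have hij : i ≠ j := by rintro rfl; exact hj hi
    have hwi := (hS i).1 hi
    have hwj : w j = 0 := by
      by_contra h
      exact hj ((hS j).2 h)
    have hs : w i = 1 ∨ w i = -1 := by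
      have := h1 i
      rw [abs_le] at this
      omega
    have h2 := hX.str _ (F.rt_mem hij hs (Or.inl rfl : (1 : ℤ) = 1 ∨ (1 : ℤ) = -1)) x hx 1 (by
      rw [F.co_rt hij hs (Or.inl rfl), hw i, hw j, hwj]
      rcases hs with h | h <;> rw [h] <;> norm_num)
    rw [Nat.cast_one, one_smul] at h2
    refine ⟨_, h2, fun l => if l = i then 0 else if l = j then -1 else w l, fun l => ?_, fun l => ?_, fun l => ?_⟩
    · rw [F.cx_sub_rt, hw l]
      by_cases hli : l = i
      · subst hli
        simp [hij.symm]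
      · by_cases hlj : l = j
        · subst hlj
          simp [hli, hij, hwj]
        · simp [hli, hlj, Ne.symm hli, Ne.symm hlj]
    · by_cases hli : l = i
      · simp [hli]
      · by_cases hlj : l = j
        · simp [hlj, hij.symm]
        · simp only [hli, hlj, if_false]; exact h1 l
    · by_cases hli : l = i
      · subst hli
        simp [hij]
      · by_cases hlj : l = j
        · subst hlj
          simp [hli]
        · simp only [hli, hlj, if_false, Finset.mem_insert, Finset.mem_erase, false_or, ne_eq,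
            not_false_eq_true, true_and]
          exact hS l
  have hcard : (Finset.univ.filter fun i => w i ≠ 0).card = k := by
    have h2 : ((Finset.univ.filter fun i => w i ≠ 0).card : ℤ) = ∑ i, |w i| := by
      rw [Finset.card_filter]
      push_cast
      refine Finset.sum_congr rfl fun i _ => ?_
      have h3 := h1 i
      rw [abs_le] at h3
      have h4 : w i = 0 ∨ w i = 1 ∨ w i = -1 := by omega
      rcases h4 with h | h | h <;> simp [h]
    rw [hk] at h2
    exact_mod_cast h2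
  have hall := exch P _ (⟨x, hx, w, hw, h1, fun i => by simp⟩ : P (Finset.univ.filter fun i => w i ≠ 0)) hcard hstep
  refine choose_le X k (fun y S => ∀ i, i ∈ S ↔ cx e c y i ≠ 0) ?_ (fun S hS => ?_)
  · intro y S S' h2 h3
    ext i
    rw [h2 i, h3 i]
  · obtain ⟨x', hx', w', hw', _, hS'⟩ := hall S hS
    refine ⟨x', hx', fun i => ?_⟩
    rw [hS' i, hw' i]
    simp

/-- the combinatorial dichotomy -/
theorem Fr.comb (F : Fr Φ m e c d) (hX : Sat Φ X) (hm : 7 ≤ m) : m.choose 3 ≤ X.card ∨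
    ∀ x ∈ X, ∃ z : Fin m → ℤ, (∀ i, cx e c x i = z i) ∧ ∑ i, |z i| ≤ 2 := by
  have h34 : m.choose 3 ≤ m.choose 4 := by
    have h1 := Nat.choose_succ_right_eq m 3
    have h2 : 4 ≤ m - 3 := by omega
    nlinarith
  by_cases hcon : m.choose 3 ≤ X.card
  · exact Or.inl hcon
  right
  intro x hx
  rcases F.int_or hX (by omega) hx with ⟨z, hz⟩ | ⟨z, hz⟩
  · refine ⟨z, hz, ?_⟩
    by_contra h3
    push Not at h3
    apply hcon
    obtain ⟨w, ⟨x', hx', hw⟩, hw1, hw2⟩ := core_bcd (by omega)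
      (fun z => ∃ x ∈ X, ∀ i, cx e c x i = z i) (by
        rintro z ⟨x, hx, hz⟩ i j hij s t hs ht h1
        have h2 := hX.str _ (F.rt_mem hij hs ht) x hx 1 (by
          rw [F.co_rt hij hs ht, hz i, hz j]
          exact_mod_cast h1)
        rw [Nat.cast_one, one_smul] at h2
        refine ⟨_, h2, fun k => ?_⟩
        rw [F.cx_sub_rt, hz k]
        unfold md
        by_cases hki : k = i
        · subst hki; simp [hij.symm]
        · by_cases hkj : k = j
          · subst hkj; simp [hki, hij]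
          · simp [hki, hkj, Ne.symm hki, Ne.symm hkj]) z ⟨x, hx, hz⟩ (by omega)
    rcases hw2 with hw2 | hw2
    · exact F.choose_of_small hX hx' w hw hw1 (k := 3) (by rw [hw2]; rfl)
    · exact h34.trans (F.choose_of_small hX hx' w hw hw1 (k := 4) (by rw [hw2]; rfl))
  · exfalso
    apply hcon
    refine h34.trans (F.choose_of_half hX (by omega) hx fun i h => ?_)
    rw [hz i] at h
    have h1 : (2 * z i + 1 : ℤ) = 0 := by
      have : ((2 * z i + 1 : ℤ) : ℝ) = 0 := by push_cast; linarith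
      exact_mod_cast this
    omega

end

end TF
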