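import Pool.Agent.Helper3.PF.Basic

/-!
Project TF (MP_b8862a_ag): coordinate frames of the classical root systems and the numerical data of the trace
identity. Definitions.
-/

set_option linter.unusedSectionVars false

open Module PF

namespace TF

variable {E : Type*} [NormedAddCommGroup E] [InnerProductSpace ℝ E]

/-- The Casimir constant `(l, l) + (1/2) ∑_{a ∈ Φ} |(l, a)|` (`= (l, l + 2 ρ)` for the highest weight `l`). -/
noncomputable def cas (Φ : Finset E) (l : E) : ℝ := inner ℝ l l + (1 / 2) * ∑ a ∈ Φ, |inner ℝ l a|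

/-- `Φ` in coordinates: the vectors `c (± e_i ± e_j)`, `i ≠ j`, and, if `d ≠ 0`, the `± d c e_i`.
Type `D_m` for `d = 0`, type `B_m` for `d = 1`, type `C_m` for `d = 2`. -/
structure Fr (Φ : Finset E) (m : ℕ) (e : Fin m → E) (c : ℝ) (d : ℕ) : Prop where
  on : Orthonormal ℝ e
  pos : 0 < c
  le : d ≤ 2
  mem : ∀ a, a ∈ Φ ↔ (∃ i j, i ≠ j ∧ (a = c • (e i + e j) ∨ a = c • (e i - e j) ∨ a = -(c • (e i + e j)))) ∨
    (d ≠ 0 ∧ ∃ i, a = (d * c : ℝ) • e i ∨ a = -((d * c : ℝ) • e i))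

/-- `Φ` in coordinates, type `A_(m-1)`: the vectors `u_i - u_j`, the `u_i` being the projections of an
orthonormal basis to the hyperplane `∑ x_i = 0`. -/
structure FrA (Φ : Finset E) (m : ℕ) (u : Fin m → E) : Prop where
  gram : ∀ i j, inner ℝ (u i) (u j) = (if i = j then 1 else 0) - 1 / (m : ℝ)
  mem : ∀ a, a ∈ Φ ↔ ∃ i j, i ≠ j ∧ a = u i - u j

/-- The numerical data: `Φ` the roots, `X` the weights of a faithful self dual module of dimension `n`, `l` the
highest weight, `y` the grading element, `T = ∑ (2 levels)^2`, and the trace identity. -/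
structure In (Φ X : Finset E) (n T : ℕ) (l y : E) : Prop where
  rs : RS Φ
  sat : Sat Φ X
  card_le : X.card ≤ n
  l_mem : l ∈ X
  l_ne : l ≠ 0
  l_max : ∀ x ∈ X, (inner ℝ x x : ℝ) ≤ inner ℝ l l
  lev : ∀ a ∈ Φ, ∃ k : ℤ, (inner ℝ a y : ℝ) = k
  y_mem : y ∈ Submodule.span ℝ (Φ : Set E)
  idt : 4 * (n : ℝ) * cas Φ l * inner ℝ y y = T * (finrank ℝ (Submodule.span ℝ (Φ : Set E)) + Φ.card)

end TF
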