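import Pool.Agent.Helper27.TF.BcdMain

/-!
Project TF (MP_b8862a_ag): the trace identity for `A_(m-1)`, `m ≥ 9`.
-/

set_option linter.unusedSectionVars false

open Module PF

namespace TF

theorem choose_four (m : ℕ) : 24 * m.choose 4 = m * (m - 1) * (m - 2) * (m - 3) := by
  have h := Nat.descFactorial_eq_factorial_mul_choose m 4
  simp only [Nat.descFactorial, Nat.factorial] at h
  rw [show (24 : ℕ) = (3 + 1) * ((2 + 1) * ((1 + 1) * ((0 + 1) * 1))) by norm_num, ← h]
  simp only [Nat.sub_zero, mul_one]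
  ring

theorem big_four {m n g : ℕ} (hm : 9 ≤ m) (h1 : m.choose 4 ≤ n) (h2 : n ≤ g * (2 * m * (m ^ 2 - 1))) :
    n ≤ 2000000 * g ^ 4 := by
  have h3 := choose_four m
  obtain ⟨t, rfl⟩ : ∃ t, m = t + 3 := ⟨m - 3, by omega⟩
  have h4 : t + 3 - 1 = t + 2 := by omega
  have h5 : t + 3 - 2 = t + 1 := by omega
  have h5' : t + 3 - 3 = t := by omega
  rw [h4, h5, h5'] at h3
  have hsq : (t + 3) ^ 2 - 1 = (t + 2) * (t + 4) := by
    have : (t + 3) ^ 2 = (t + 2) * (t + 4) + 1 := by ring
    omega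
  rw [hsq] at h2
  have h7 : ((t + 3) * (t + 2)) * ((t + 1) * t) ≤ ((t + 3) * (t + 2)) * (48 * g * (t + 4)) := by
    calc ((t + 3) * (t + 2)) * ((t + 1) * t) = (t + 3) * (t + 2) * (t + 1) * t := by ring
      _ = 24 * (t + 3).choose 4 := h3.symm
      _ ≤ 24 * (g * (2 * (t + 3) * ((t + 2) * (t + 4)))) := Nat.mul_le_mul_left _ (h1.trans h2)
      _ = ((t + 3) * (t + 2)) * (48 * g * (t + 4)) := by ring
  have h8 : (t + 1) * t ≤ 48 * g * (t + 4) := Nat.le_of_mul_le_mul_left h7 (by positivity)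
  have h9 : (t + 1) * t ≤ (96 * g) * t := by
    calc (t + 1) * t ≤ 48 * g * (t + 4) := h8
      _ ≤ 48 * g * (2 * t) := Nat.mul_le_mul_left _ (by omega)
      _ = (96 * g) * t := by ring
  have h10 : t + 1 ≤ 96 * g := Nat.le_of_mul_le_mul_right h9 (by omega)
  have h11 : t + 3 ≤ 98 * g := by omega
  calc n ≤ g * (2 * (t + 3) * ((t + 2) * (t + 4))) := h2
    _ ≤ g * (2 * (t + 3) * (t + 3) ^ 2) := by
        refine Nat.mul_le_mul_left _ (Nat.mul_le_mul_left _ ?_)
        nlinarith
    _ = g * (2 * (t + 3) ^ 3) := by ring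
    _ ≤ g * (2 * (98 * g) ^ 3) := by
        refine Nat.mul_le_mul_left _ (Nat.mul_le_mul_left _ (Nat.pow_le_pow_left h11 3))
    _ = 1882384 * g ^ 4 := by ring
    _ ≤ 2000000 * g ^ 4 := Nat.mul_le_mul_right _ (by norm_num)

variable {E : Type*} [NormedAddCommGroup E] [InnerProductSpace ℝ E] {Φ X : Finset E}
  {m : ℕ} {u : Fin m → E} {n T : ℕ} {l y : E}

theorem FrA.inner_sub (F : FrA Φ m u) (i j k : Fin m) :
    (inner ℝ (u i - u j) (u k) : ℝ) = (if i = k then 1 else 0) - (if j = k then 1 else 0) := by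
  rw [inner_sub_left, F.gram, F.gram]
  ring

theorem FrA.inner_sub' (_F : FrA Φ m u) (x : E) (i j : Fin m) :
    (inner ℝ x (u i - u j) : ℝ) = inner ℝ x (u i) - inner ℝ x (u j) := by
  rw [inner_sub_right]

theorem FrA.norm (F : FrA Φ m u) {i j : Fin m} (hij : i ≠ j) : (inner ℝ (u i - u j) (u i - u j) : ℝ) = 2 := by
  rw [F.inner_sub', F.inner_sub, F.inner_sub, if_pos rfl, if_neg hij.symm, if_neg hij, if_pos rfl]
  norm_num

theorem FrA.co (F : FrA Φ m u) {i j : Fin m} (hij : i ≠ j) (x : E) :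
    co (u i - u j) x = inner ℝ x (u i) - inner ℝ x (u j) := by
  unfold PF.co
  rw [F.norm hij, F.inner_sub']
  ring

theorem FrA.sum_u (F : FrA Φ m u) (hm : 0 < m) : ∑ i, u i = 0 := by
  have h1 : (inner ℝ (∑ i, u i) (∑ i, u i) : ℝ) = 0 := by
    rw [sum_inner]
    have h2 : ∀ i, (inner ℝ (u i) (∑ j, u j) : ℝ) = 0 := by
      intro i
      rw [inner_sum]
      simp only [F.gram, Finset.sum_sub_distrib, Finset.sum_ite_eq, Finset.mem_univ, if_true, Finset.sum_const,
        Finset.card_univ, Fintype.card_fin, nsmul_eq_mul]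
      have : (m : ℝ) ≠ 0 := by exact_mod_cast hm.ne'
      field_simp
      norm_num
    simp only [h2, Finset.sum_const_zero]
  exact inner_self_eq_zero.1 h1

theorem FrA.sum_ax (F : FrA Φ m u) (hm : 0 < m) (x : E) : ∑ i, (inner ℝ x (u i) : ℝ) = 0 := by
  rw [← inner_sum, F.sum_u hm, inner_zero_right]

theorem FrA.mem' (F : FrA Φ m u) {i j : Fin m} (hij : i ≠ j) : u i - u j ∈ Φ := (F.mem _).2 ⟨i, j, hij, rfl⟩

theorem FrA.expand (F : FrA Φ m u) {x : E} (hx : x ∈ Submodule.span ℝ (Φ : Set E)) :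
    x = ∑ i, (inner ℝ x (u i) : ℝ) • u i := by
  induction hx using Submodule.span_induction with
  | mem x hx =>
    obtain ⟨i, j, hij, rfl⟩ := (F.mem x).1 hx
    simp only [F.inner_sub, sub_smul, ite_smul, one_smul, zero_smul, Finset.sum_sub_distrib, Finset.sum_ite_eq,
      Finset.mem_univ, if_true]
  | zero => simp
  | add x y _ _ hx hy =>
    conv_lhs => rw [hx, hy]
    rw [← Finset.sum_add_distrib]
    refine Finset.sum_congr rfl fun i _ => ?_
    rw [inner_add_left, add_smul]
  | smul r x _ hx =>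
    conv_lhs => rw [hx]
    rw [Finset.smul_sum]
    refine Finset.sum_congr rfl fun i _ => ?_
    rw [inner_smul_left, smul_smul, conj_trivial]

theorem FrA.inner_eq (F : FrA Φ m u) {x : E} (hx : x ∈ Submodule.span ℝ (Φ : Set E)) (y : E) :
    (inner ℝ x y : ℝ) = ∑ i, inner ℝ x (u i) * inner ℝ y (u i) := by
  conv_lhs => rw [F.expand hx]
  rw [sum_inner]
  refine Finset.sum_congr rfl fun i _ => ?_
  rw [inner_smul_left, conj_trivial, real_inner_comm y (u i)]

theorem FrA.eq_of (F : FrA Φ m u) {x y : E} (hx : x ∈ Submodule.span ℝ (Φ : Set E))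
    (hy : y ∈ Submodule.span ℝ (Φ : Set E)) (h : ∀ i, (inner ℝ x (u i) : ℝ) = inner ℝ y (u i)) : x = y := by
  rw [F.expand hx, F.expand hy]
  exact Finset.sum_congr rfl fun i _ => by rw [h i]

theorem FrA.finrank (F : FrA Φ m u) (hm : 2 ≤ m) : finrank ℝ (Submodule.span ℝ (Φ : Set E)) = m - 1 := by
  let i0 : Fin m := ⟨0, by omega⟩
  let v : {i : Fin m // i ≠ i0} → E := fun i => u i.1 - u i0
  have hli : LinearIndependent ℝ v := by
    rw [linearIndependent_iff']
    intro s g hg k hk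
    have h1 : (inner ℝ (∑ i ∈ s, g i • v i) (u k.1) : ℝ) = 0 := by rw [hg, inner_zero_left]
    rw [sum_inner, Finset.sum_eq_single k] at h1
    · rw [inner_smul_left, F.inner_sub, if_pos rfl, if_neg (Ne.symm k.2)] at h1
      simpa using h1
    · intro i _ hi
      rw [inner_smul_left, F.inner_sub, if_neg (fun h => hi (Subtype.ext h)), if_neg (Ne.symm k.2)]
      simp
    · intro h; exact absurd hk h
  have hsp : Submodule.span ℝ (Φ : Set E) = Submodule.span ℝ (Set.range v) := by
    apply le_antisymm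
    · rw [Submodule.span_le]
      intro a ha
      obtain ⟨i, j, hij, rfl⟩ := (F.mem a).1 ha
      have hv : ∀ i : Fin m, u i - u i0 ∈ Submodule.span ℝ (Set.range v) := by
        intro i
        by_cases h : i = i0
        · rw [h, sub_self]; exact Submodule.zero_mem _
        · exact Submodule.subset_span ⟨⟨i, h⟩, rfl⟩
      have h1 : u i - u j = (u i - u i0) - (u j - u i0) := by abel
      rw [h1]
      exact Submodule.sub_mem _ (hv i) (hv j)
    · rw [Submodule.span_le]
      rintro _ ⟨i, rfl⟩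
      exact Submodule.subset_span (F.mem' i.2)
  rw [hsp, finrank_span_eq_card hli]
  rw [Fintype.card_subtype_compl, Fintype.card_fin]
  simp

theorem FrA.card (F : FrA Φ m u) : (Φ.card : ℝ) = m * (m - 1) := by
  classical
  have h1 : Φ = (Finset.univ : Finset (Fin m)).offDiag.image fun p => u p.1 - u p.2 := by
    ext a
    rw [F.mem]
    simp only [Finset.mem_image, Finset.mem_offDiag, Finset.mem_univ, true_and]
    constructor
    · rintro ⟨i, j, hij, rfl⟩
      exact ⟨(i, j), hij, rfl⟩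
    · rintro ⟨p, hp, rfl⟩
      exact ⟨p.1, p.2, hp, rfl⟩
  have hi1 : Set.InjOn (fun p : Fin m × Fin m => u p.1 - u p.2)
      ((Finset.univ : Finset (Fin m)).offDiag : Set (Fin m × Fin m)) := by
    intro p hp q hq h
    have hp' := (Finset.mem_offDiag.1 hp).2.2
    have h1 : (inner ℝ (u p.1 - u p.2) (u p.1) : ℝ) = inner ℝ (u q.1 - u q.2) (u p.1) := by
      have : u p.1 - u p.2 = u q.1 - u q.2 := h
      rw [this]
    have h2 : (inner ℝ (u p.1 - u p.2) (u p.2) : ℝ) = inner ℝ (u q.1 - u q.2) (u p.2) := by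
      have : u p.1 - u p.2 = u q.1 - u q.2 := h
      rw [this]
    rw [F.inner_sub, F.inner_sub, if_pos rfl, if_neg hp'.symm] at h1
    rw [F.inner_sub, F.inner_sub, if_neg hp', if_pos rfl] at h2
    have h3 : q.1 = p.1 := by
      by_contra hc
      rw [if_neg hc] at h1
      split_ifs at h1 <;> norm_num at h1
    have h4 : q.2 = p.2 := by
      by_contra hc
      rw [if_neg hc] at h2
      split_ifs at h2 <;> norm_num at h2
    exact Prod.ext h3.symm h4.symm
  rw [h1, Finset.card_image_of_injOn hi1, offDiag_card]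

theorem FrA.int_sub (F : FrA Φ m u) (hX : Sat Φ X) {x : E} (hx : x ∈ X) (i j : Fin m) :
    ∃ k : ℤ, (inner ℝ x (u i) - inner ℝ x (u j) : ℝ) = k := by
  by_cases hij : i = j
  · exact ⟨0, by rw [hij]; simp⟩
  · obtain ⟨k, hk⟩ := hX.int _ (F.mem' hij) x hx
    rw [F.co hij] at hk
    exact ⟨k, hk⟩

theorem FrA.int_closure (F : FrA Φ m u) {v : E} (hv : v ∈ AddSubgroup.closure (Φ : Set E)) (i : Fin m) :
    ∃ k : ℤ, (inner ℝ v (u i) : ℝ) = k := by
  induction hv using AddSubgroup.closure_induction with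
  | mem a ha =>
    obtain ⟨k, j, _, rfl⟩ := (F.mem a).1 ha
    rw [F.inner_sub]
    refine ⟨(if k = i then 1 else 0) - (if j = i then 1 else 0), ?_⟩
    push_cast
    rfl
  | zero => exact ⟨0, by simp⟩
  | add v w _ _ hv hw =>
    obtain ⟨p, hp⟩ := hv
    obtain ⟨q, hq⟩ := hw
    exact ⟨p + q, by rw [inner_add_left, hp, hq]; push_cast; ring⟩
  | neg v _ hv =>
    obtain ⟨p, hp⟩ := hv
    exact ⟨-p, by rw [inner_neg_left, hp]; push_cast; ring⟩

theorem FrA.two_int (F : FrA Φ m u) (hX : Sat Φ X) {x : E} (hx : x ∈ X) (i : Fin m) :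
    ∃ k : ℤ, (2 * inner ℝ x (u i) : ℝ) = k := by
  obtain ⟨k, hk⟩ := F.int_closure (hX.coset x hx (-x) (hX.neg x hx)) i
  refine ⟨k, ?_⟩
  rw [← hk, inner_sub_left, inner_neg_left]
  ring

theorem FrA.int_or (F : FrA Φ m u) (hX : Sat Φ X) (hm : 2 ≤ m) {x : E} (hx : x ∈ X) :
    (∃ z : Fin m → ℤ, ∀ i, (inner ℝ x (u i) : ℝ) = z i) ∨
      (∃ z : Fin m → ℤ, ∀ i, (inner ℝ x (u i) : ℝ) = z i + 1 / 2) := by
  let i0 : Fin m := ⟨0, by omega⟩
  obtain ⟨a, ha⟩ := F.two_int hX hx i0
  choose z hz using fun i => F.int_sub hX hx i i0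
  rcases Int.even_or_odd' a with ⟨q, hq | hq⟩
  · left
    refine ⟨fun i => z i + q, fun i => ?_⟩
    have h3 : (inner ℝ x (u i0) : ℝ) = q := by rw [hq] at ha; push_cast at ha; linarith
    have := hz i
    push_cast
    linarith
  · right
    refine ⟨fun i => z i + q, fun i => ?_⟩
    have h3 : (inner ℝ x (u i0) : ℝ) = q + 1 / 2 := by rw [hq] at ha; push_cast at ha; linarith
    have := hz i
    push_cast
    linarith

/-- move one unit -/
theorem FrA.step (F : FrA Φ m u) (hX : Sat Φ X) {x : E} (hx : x ∈ X) {i j : Fin m} (hij : i ≠ j)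
    (h1 : (1 : ℝ) ≤ inner ℝ x (u i) - inner ℝ x (u j)) : x - (u i - u j) ∈ X := by
  have h2 := hX.str _ (F.mem' hij) x hx 1 (by rw [F.co hij, Nat.cast_one]; exact h1)
  rw [Nat.cast_one, one_smul] at h2
  exact h2

theorem FrA.ax_step (F : FrA Φ m u) (x : E) (i j k : Fin m) :
    (inner ℝ (x - (u i - u j)) (u k) : ℝ) =
      inner ℝ x (u k) - ((if i = k then 1 else 0) - (if j = k then 1 else 0)) := by
  rw [_root_.inner_sub_left x (u i - u j) (u k), F.inner_sub]

/-- the half odd case -/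
theorem FrA.choose_of_half (F : FrA Φ m u) (hX : Sat Φ X) (hm : 2 ≤ m) {x : E} (hx : x ∈ X)
    (hz : ∃ z : Fin m → ℤ, ∀ i, (inner ℝ x (u i) : ℝ) = z i + 1 / 2) : m.choose (m / 2) ≤ X.card := by
  classical
  -- minimal norm
  let Y := X.filter fun x => ∃ z : Fin m → ℤ, ∀ i, (inner ℝ x (u i) : ℝ) = z i + 1 / 2
  have hY : Y.Nonempty := ⟨x, Finset.mem_filter.2 ⟨hx, hz⟩⟩
  obtain ⟨w, hw, hmin⟩ := Finset.exists_min_image Y (fun x => (inner ℝ x x : ℝ)) hY
  obtain ⟨hwX, z, hz⟩ := Finset.mem_filter.1 hw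
  have hdiff : ∀ i j, z i - z j ≤ 1 := by
    intro i j
    by_contra hc
    push Not at hc
    have hij : i ≠ j := by rintro rfl; omega
    have h1 : (2 : ℝ) ≤ inner ℝ w (u i) - inner ℝ w (u j) := by
      rw [hz i, hz j]
      have : (2 : ℝ) ≤ (z i - z j : ℤ) := by exact_mod_cast (by omega : (2 : ℤ) ≤ z i - z j)
      push_cast at this
      linarith
    have h2 := F.step hX hwX hij (by linarith)
    have h3 : w - (u i - u j) ∈ Y := by
      refine Finset.mem_filter.2 ⟨h2, fun k => z k - ((if i = k then 1 else 0) - (if j = k then 1 else 0)),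
        fun k => ?_⟩
      rw [F.ax_step, hz k]
      push_cast
      ring
    have h4 := hmin _ h3
    have h5 : (inner ℝ (w - (u i - u j)) (w - (u i - u j)) : ℝ) =
        inner ℝ w w - 2 * (inner ℝ w (u i) - inner ℝ w (u j)) + 2 := by
      rw [_root_.inner_sub_left w (u i - u j), inner_sub_right w w (u i - u j), inner_sub_right (u i - u j) w,
        F.norm hij, real_inner_comm w (u i - u j), F.inner_sub']
      ring
    rw [h5] at h4
    linarith
  have hsum : ∑ i, ((z i : ℝ) + 1 / 2) = 0 := by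
    rw [← F.sum_ax (by omega) w]
    exact Finset.sum_congr rfl fun i _ => (hz i).symm
  have hz01 : ∀ i, z i = 0 ∨ z i = -1 := by
    intro i
    by_contra hc
    have h1 : 1 ≤ z i ∨ z i ≤ -2 := by omega
    rcases h1 with h1 | h1
    · have h2 : 0 < ∑ j, ((z j : ℝ) + 1 / 2) := by
        refine Finset.sum_pos (fun j _ => ?_) ⟨i, Finset.mem_univ i⟩
        have h3 : 0 ≤ z j := by have := hdiff i j; omega
        have : (0 : ℝ) ≤ z j := by exact_mod_cast h3
        linarith
      linarith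
    · have h2 : ∑ j, ((z j : ℝ) + 1 / 2) < ∑ j : Fin m, (0 : ℝ) := by
        refine Finset.sum_lt_sum_of_nonempty ⟨i, Finset.mem_univ i⟩ (fun j _ => ?_)
        have h3 : z j ≤ -1 := by have := hdiff j i; omega
        have : (z j : ℝ) ≤ -1 := by exact_mod_cast h3
        linarith
      rw [Finset.sum_const_zero] at h2
      linarith
  let S0 : Finset (Fin m) := Finset.univ.filter fun i => z i = 0
  have hcard : S0.card = m / 2 := by
    have h1 : ∀ i, ((z i : ℝ) + 1 / 2) = (if z i = 0 then (1 : ℝ) else 0) - 1 / 2 := by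
      intro i
      rcases hz01 i with h | h
      · rw [h]; norm_num
      · rw [h]; norm_num
    simp only [h1, Finset.sum_sub_distrib, Finset.sum_const, Finset.card_univ, Fintype.card_fin,
      nsmul_eq_mul] at hsum
    have h2 : (∑ i : Fin m, if z i = 0 then (1 : ℝ) else 0) = S0.card := by
      rw [Finset.card_filter]; push_cast; rfl
    rw [h2] at hsum
    have h3 : 2 * (S0.card : ℝ) = m := by linarith
    have h4 : 2 * S0.card = m := by exact_mod_cast h3
    omega
  let P : Finset (Fin m) → Prop := fun S => ∃ x ∈ X, ∀ i, (inner ℝ x (u i) : ℝ) = if i ∈ S then 1 / 2 else -(1 / 2)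
  have hstart : P S0 := by
    refine ⟨w, hwX, fun i => ?_⟩
    rw [hz i]
    rcases hz01 i with h | h
    · rw [if_pos (Finset.mem_filter.2 ⟨Finset.mem_univ i, h⟩), h]; norm_num
    · rw [if_neg, h]
      · norm_num
      · intro h'
        have := (Finset.mem_filter.1 h').2
        omega
  have hstep : ∀ S, P S → ∀ i ∈ S, ∀ j, j ∉ S → P (insert j (S.erase i)) := by
    rintro S ⟨x, hx, hS⟩ i hi j hj
    have hij : i ≠ j := by rintro rfl; exact hj hi
    have h1 := F.step hX hx hij (by rw [hS i, hS j, if_pos hi, if_neg hj]; norm_num)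
    refine ⟨_, h1, fun k => ?_⟩
    rw [F.ax_step, hS k]
    by_cases hki : k = i
    · subst hki
      rw [if_pos hi, if_pos rfl, if_neg hij.symm, if_neg]
      · norm_num
      · simp [hij]
    · by_cases hkj : k = j
      · subst hkj
        rw [if_neg hj, if_neg (Ne.symm hki), if_pos rfl, if_pos (Finset.mem_insert_self _ _)]
        norm_num
      · rw [if_neg (Ne.symm hki), if_neg (Ne.symm hkj)]
        have : k ∈ insert j (S.erase i) ↔ k ∈ S := by simp [hki, hkj]
        simp only [this]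
        norm_num
  have hall := exch P S0 hstart hcard hstep
  refine choose_le X (m / 2) (fun x S => ∀ i, (inner ℝ x (u i) : ℝ) = if i ∈ S then 1 / 2 else -(1 / 2)) ?_
    (fun S hS => hall S hS)
  intro y S S' h1 h2
  ext k
  have h3 := h1 k
  have h4 := h2 k
  rw [h3] at h4
  by_cases hk : k ∈ S <;> by_cases hk' : k ∈ S' <;> simp only [hk, hk', if_true, if_false] at h4 ⊢
  · norm_num at h4
  · norm_num at h4

theorem FrA.choose_of_small (F : FrA Φ m u) (hX : Sat Φ X) {x : E} (hx : x ∈ X) (w : Fin m → ℤ)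
    (hw : ∀ i, (inner ℝ x (u i) : ℝ) = w i) (h1 : ∀ i, |w i| ≤ 1) {k : ℕ} (hk : ∑ i, |w i| = k) :
    m.choose k ≤ X.card := by
  classical
  let P : Finset (Fin m) → Prop := fun S => ∃ x ∈ X, ∃ w : Fin m → ℤ, (∀ i, (inner ℝ x (u i) : ℝ) = w i) ∧
    (∀ i, |w i| ≤ 1) ∧ ∀ i, i ∈ S ↔ w i ≠ 0
  have hstep : ∀ S, P S → ∀ i ∈ S, ∀ j, j ∉ S → P (insert j (S.erase i)) := by
    rintro S ⟨x, hx, w, hw, h1, hS⟩ i hi j hj
    have hij : i ≠ j := by rintro rfl; exact hj hi
    have hwi := (hS i).1 hi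
    have hwj : w j = 0 := by
      by_contra h
      exact hj ((hS j).2 h)
    have hs : w i = 1 ∨ w i = -1 := by
      have := h1 i
      rw [abs_le] at this
      omega
    obtain ⟨x', hx', hx''⟩ : ∃ x' ∈ X, ∀ k, (inner ℝ x' (u k) : ℝ) =
        inner ℝ x (u k) - w i * ((if i = k then 1 else 0) - (if j = k then 1 else 0)) := by
      rcases hs with h | h
      · refine ⟨_, F.step hX hx hij (by rw [hw i, hw j, h, hwj]; norm_num), fun k => ?_⟩
        rw [F.ax_step, h]; push_cast; ring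
      · refine ⟨_, F.step hX hx hij.symm (by rw [hw i, hw j, h, hwj]; norm_num), fun k => ?_⟩
        rw [F.ax_step, h]; push_cast; ring
    refine ⟨x', hx', fun l => if l = i then 0 else if l = j then w i else w l, fun l => ?_, fun l => ?_,
      fun l => ?_⟩
    · rw [hx'', hw l]
      by_cases hli : l = i
      · subst hli
        simp [hij.symm]
      · by_cases hlj : l = j
        · subst hlj
          simp [hli, hij, hwj]
        · simp [hli, hlj, Ne.symm hli, Ne.symm hlj]
    · by_cases hli : l = i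
      · simp [hli]
      · by_cases hlj : l = j
        · simp only [hlj, hij.symm, if_false, if_true]; exact h1 i
        · simp only [hli, hlj, if_false]; exact h1 l
    · by_cases hli : l = i
      · subst hli
        simp [hij]
      · by_cases hlj : l = j
        · subst hlj
          simp [hli, hwi]
        · simp only [hli, hlj, if_false, Finset.mem_insert, Finset.mem_erase, false_or, ne_eq,
            not_false_eq_true, true_and]
          exact hS l
  have hcard : (Finset.univ.filter fun i => w i ≠ 0).card = k := by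
    have h2 : ((Finset.univ.filter fun i => w i ≠ 0).card : ℤ) = ∑ i, |w i| := by
      rw [Finset.card_filter]
      push_cast
      refine Finset.sum_congr rfl fun i _ => ?_
      have h3 := h1 i
      rw [abs_le] at h3
      have h4 : w i = 0 ∨ w i = 1 ∨ w i = -1 := by omega
      rcases h4 with h | h | h <;> simp [h]
    rw [hk] at h2
    exact_mod_cast h2
  have hall := exch P _ (⟨x, hx, w, hw, h1, fun i => by simp⟩ : P (Finset.univ.filter fun i => w i ≠ 0)) hcard hstep
  refine choose_le X k (fun y S => ∀ i, i ∈ S ↔ (inner ℝ y (u i) : ℝ) ≠ 0) ?_ (fun S hS => ?_)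
  · intro y S S' h2 h3
    ext i
    rw [h2 i, h3 i]
  · obtain ⟨x', hx', w', hw', _, hS'⟩ := hall S hS
    refine ⟨x', hx', fun i => ?_⟩
    rw [hS' i, hw' i]
    simp

theorem FrA.comb (F : FrA Φ m u) (hX : Sat Φ X) (hm : 8 ≤ m) : m.choose 4 ≤ X.card ∨
    ∀ x ∈ X, ∃ z : Fin m → ℤ, (∀ i, (inner ℝ x (u i) : ℝ) = z i) ∧ ∑ i, |z i| ≤ 2 := by
  by_cases hcon : m.choose 4 ≤ X.card
  · exact Or.inl hcon
  right
  intro x hx
  rcases F.int_or hX (by omega) hx with ⟨z, hz⟩ | hz
  · refine ⟨z, hz, ?_⟩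
    by_contra h3
    push Not at h3
    apply hcon
    obtain ⟨w, ⟨x', hx', hw⟩, hw1, hw2⟩ := core_a (by omega)
      (fun z => ∃ x ∈ X, ∀ i, (inner ℝ x (u i) : ℝ) = z i) (by
        rintro z ⟨x, hx, hz⟩
        have h1 := F.sum_ax (by omega) x
        simp only [hz] at h1
        exact_mod_cast h1) (by
        rintro z ⟨x, hx, hz⟩ i j hij h1
        have h2 := F.step hX hx hij (by
          rw [hz i, hz j]
          exact_mod_cast h1)
        refine ⟨_, h2, fun k => ?_⟩
        rw [F.ax_step, hz k]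
        unfold md
        by_cases hki : k = i
        · subst hki; simp [hij.symm]
        · by_cases hkj : k = j
          · subst hkj; simp [hki, hij]
          · simp [hki, hkj, Ne.symm hki, Ne.symm hkj]) z ⟨x, hx, hz⟩ (by omega)
    exact F.choose_of_small hX hx' w hw hw1 (k := 4) (by rw [hw2]; rfl)
  · exfalso
    apply hcon
    exact (Nat.choose_le_middle 4 m).trans (F.choose_of_half hX (by omega) hx hz)

/-- the trace identity in general -/
theorem In.generalA (h : In Φ X n T l y) (F : FrA Φ m u) (hm : 9 ≤ m) :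
    n ≤ Nat.gcd n T * (2 * m * (m ^ 2 - 1)) := by
  -- the Casimir constant
  obtain ⟨A, hA⟩ : ∃ A : ℤ, 4 * cas Φ l = (A : ℝ) := by
    choose k hk using F.two_int h.sat h.l_mem
    have h3 : ∀ a, ∃ q : ℤ, a ∈ Φ → (inner ℝ l a : ℝ) = q := by
      intro a
      by_cases ha : a ∈ Φ
      · obtain ⟨i, j, hij, rfl⟩ := (F.mem a).1 ha
        obtain ⟨q, hq⟩ := F.int_sub h.sat h.l_mem i j
        exact ⟨q, fun _ => by rw [F.inner_sub']; exact hq⟩
      · exact ⟨0, fun h => absurd h ha⟩
    choose q hq using h3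
    refine ⟨∑ i, k i ^ 2 + 2 * ∑ a ∈ Φ, |q a|, ?_⟩
    have h5 : (∑ a ∈ Φ, |(inner ℝ l a : ℝ)|) = (∑ a ∈ Φ, (|q a| : ℝ)) :=
      Finset.sum_congr rfl fun a ha => by rw [hq a ha]
    have h6 : (inner ℝ l l : ℝ) * 4 = (∑ i, (k i : ℝ) ^ 2) := by
      rw [F.inner_eq (Sat.span27 h.sat h.l_mem), Finset.sum_mul]
      refine Finset.sum_congr rfl fun i _ => ?_
      rw [← hk i]; ring
    unfold cas
    push_cast
    linear_combination h6 + 2 * h5
  obtain ⟨B, hB⟩ : ∃ B : ℤ, 2 * m * inner ℝ y y = (B : ℝ) := by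
    have h1 : ∀ i j, ∃ k : ℤ, (inner ℝ y (u i) - inner ℝ y (u j) : ℝ) = k := by
      intro i j
      by_cases hij : i = j
      · exact ⟨0, by rw [hij]; simp⟩
      · obtain ⟨k, hk⟩ := h.lev _ (F.mem' hij)
        rw [real_inner_comm, F.inner_sub'] at hk
        exact ⟨k, hk⟩
    choose k hk using h1
    refine ⟨∑ i, ∑ j, k i j ^ 2, ?_⟩
    push_cast
    have h2 : ∑ i, ∑ j, ((k i j : ℝ)) ^ 2 = ∑ i : Fin m, ∑ j : Fin m,
        ((inner ℝ y (u i) : ℝ) ^ 2 + (inner ℝ y (u j)) ^ 2 - 2 * (inner ℝ y (u i) * inner ℝ y (u j))) := by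
      refine Finset.sum_congr rfl fun i _ => Finset.sum_congr rfl fun j _ => ?_
      rw [← hk i j]; ring
    rw [h2]
    simp only [Finset.sum_sub_distrib, Finset.sum_add_distrib, Finset.sum_const, Finset.card_univ,
      Fintype.card_fin, nsmul_eq_mul, ← Finset.mul_sum, F.sum_ax (by omega : 0 < m) y, mul_zero]
    have h3 : ∑ i, (inner ℝ y (u i) : ℝ) ^ 2 = inner ℝ y y := by
      rw [F.inner_eq h.y_mem]
      exact Finset.sum_congr rfl fun i _ => by ring
    rw [h3]
    ring
  have h1 := h.idt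
  rw [F.finrank (by omega), F.card] at h1
  have hm1 : ((m - 1 : ℕ) : ℝ) = m - 1 := by
    rw [Nat.cast_sub (by omega)]; norm_num
  rw [hm1] at h1
  have hm2 : ((m ^ 2 - 1 : ℕ) : ℝ) = (m : ℝ) ^ 2 - 1 := by
    rw [Nat.cast_sub (Nat.one_le_pow _ _ (by omega))]; norm_num
  have h2 : ((n * (A * B) : ℤ) : ℝ) = ((T * (2 * m * (m ^ 2 - 1)) : ℕ) : ℝ) := by
    push_cast [hm2]
    rw [← hA, ← hB]
    linear_combination 2 * (m : ℝ) * h1
  have h3 : (n : ℤ) ∣ ((T * (2 * m * (m ^ 2 - 1)) : ℕ) : ℤ) := ⟨A * B, by exact_mod_cast h2.symm⟩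
  refine le_of_mul h.n_pos ?_ (Int.natCast_dvd_natCast.1 h3)
  have : 1 < m ^ 2 := Nat.one_lt_pow (by norm_num) (by omega)
  have h5 : 0 < m ^ 2 - 1 := by omega
  positivity

/-- **The trace identity for `A_(m-1)`.** -/
theorem In.a (h : In Φ X n T l y) (F : FrA Φ m u) (hm : 9 ≤ m) :
    n ≤ 2000000 * Nat.gcd n T ^ 4 ∨ (l ∈ Φ ∧ ∀ a ∈ Φ, (inner ℝ a a : ℝ) ≤ inner ℝ l l) := by
  rcases F.comb h.sat (by omega) with hbig | hsm
  · left
    exact big_four hm (hbig.trans h.card_le) (h.generalA F hm)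
  right
  obtain ⟨z, hz, hz2⟩ := hsm l h.l_mem
  have hlsp := Sat.span27 h.sat h.l_mem
  have hz0 : ∑ i, z i = 0 := by
    have h1 := F.sum_ax (by omega) l
    simp only [hz] at h1
    exact_mod_cast h1
  have hroot : l ∈ Φ := by
    rcases small_z hz2 with h0 | ⟨k, hk, hj⟩ | ⟨k, hk, hj⟩ | ⟨k, k', hkk, hk, hk', hj⟩
    · exfalso
      apply h.l_ne
      have : (inner ℝ l l : ℝ) = 0 := by
        rw [F.inner_eq hlsp]
        exact Finset.sum_eq_zero fun i _ => by rw [hz i, h0 i]; norm_num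
      exact inner_self_eq_zero.1 this
    · exfalso
      rw [Finset.sum_eq_single k (fun i _ hi => hj i hi) (fun h => absurd (Finset.mem_univ k) h)] at hz0
      rw [hz0] at hk
      norm_num at hk
    · exfalso
      rw [Finset.sum_eq_single k (fun i _ hi => hj i hi) (fun h => absurd (Finset.mem_univ k) h)] at hz0
      rw [hz0] at hk
      norm_num at hk
    · have hsum : z k + z k' = 0 := by
        rw [← hz0, ← Finset.add_sum_erase _ _ (Finset.mem_univ k),
          ← Finset.add_sum_erase _ _ (Finset.mem_erase.2 ⟨hkk.symm, Finset.mem_univ k'⟩), Finset.sum_eq_zero,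
          add_zero]
        intro i hi
        have h1 := Finset.mem_erase.1 hi
        exact hj i (Finset.mem_erase.1 h1.2).1 h1.1
      have hcases : (z k = 1 ∧ z k' = -1) ∨ (z k = -1 ∧ z k' = 1) := by
        rcases abs_cases (z k) with h1 | h1 <;> omega
      rcases hcases with ⟨h1, h2⟩ | ⟨h1, h2⟩
      · have h3 : l = u k - u k' := by
          refine F.eq_of hlsp (Submodule.subset_span (F.mem' hkk)) fun i => ?_
          rw [hz i, F.inner_sub]
          by_cases hi : i = k
          · rw [hi, h1, if_pos rfl, if_neg hkk.symm]; norm_num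
          · by_cases hi' : i = k'
            · rw [hi', h2, if_neg hkk, if_pos rfl]; norm_num
            · rw [hj i hi hi', if_neg (Ne.symm hi), if_neg (Ne.symm hi')]; norm_num
        rw [h3]; exact F.mem' hkk
      · have h3 : l = u k' - u k := by
          refine F.eq_of hlsp (Submodule.subset_span (F.mem' hkk.symm)) fun i => ?_
          rw [hz i, F.inner_sub]
          by_cases hi : i = k
          · rw [hi, h1, if_pos rfl, if_neg hkk.symm]; norm_num
          · by_cases hi' : i = k'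
            · rw [hi', h2, if_neg hkk, if_pos rfl]; norm_num
            · rw [hj i hi hi', if_neg (Ne.symm hi), if_neg (Ne.symm hi')]; norm_num
        rw [h3]; exact F.mem' hkk.symm
  refine ⟨hroot, fun a ha => ?_⟩
  obtain ⟨i, j, hij, rfl⟩ := (F.mem a).1 ha
  obtain ⟨i', j', hij', h1⟩ := (F.mem l).1 hroot
  rw [h1, F.norm hij, F.norm hij']

end TF
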