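import Pool.Agent.Helper27.TF.Cls
import Pool.Agent.Helper3.PF.Comb

/-!
Project TF (MP_b8862a_ag): the trace identity for root systems with few roots.
-/

set_option linter.unusedSectionVars false

open Module PF

namespace TF

variable {E : Type*} [NormedAddCommGroup E] [InnerProductSpace ℝ E] {Φ X : Finset E} {m n T : ℕ} {l y : E}

/-- the operator `∑ (x, a) a` -/
noncomputable def opA (Φ : Finset E) : E →ₗ[ℝ] E where
  toFun x := ∑ a ∈ Φ, (inner ℝ x a : ℝ) • a
  map_add' x y := by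
    rw [← Finset.sum_add_distrib]
    exact Finset.sum_congr rfl fun a _ => by rw [inner_add_left, add_smul]
  map_smul' r x := by
    rw [Finset.smul_sum]
    exact Finset.sum_congr rfl fun a _ => by
      rw [inner_smul_left, conj_trivial, smul_smul, RingHom.id_apply]

theorem opA_apply (x : E) : opA Φ x = ∑ a ∈ Φ, (inner ℝ x a : ℝ) • a := rfl

theorem opA_symm (x y : E) : (inner ℝ (opA Φ x) y : ℝ) = inner ℝ x (opA Φ y) := by
  rw [opA_apply, opA_apply, sum_inner, inner_sum]
  refine Finset.sum_congr rfl fun a _ => ?_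
  rw [inner_smul_left, inner_smul_right, conj_trivial, real_inner_comm y a]
  ring

/-- the reflection as a linear map -/
noncomputable def rfm (b : E) : E →ₗ[ℝ] E where
  toFun x := x - co b x • b
  map_add' x y := by
    have : co b (x + y) = co b x + co b y := by
      unfold co; rw [inner_add_left]; ring
    rw [this, add_smul]; abel
  map_smul' r x := by
    have : co b (r • x) = r * co b x := by
      unfold co; rw [inner_smul_left, conj_trivial]; ring
    rw [this, mul_smul, smul_sub, RingHom.id_apply]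

theorem rfm_apply (b x : E) : rfm b x = x - co b x • b := rfl

theorem rfm_rfm (h : RS Φ) {b : E} (hb : b ∈ Φ) (x : E) : rfm b (rfm b x) = x := by
  have h1 : co b (rfm b x) = - co b x := by
    have h2 := h.co_self hb
    rw [rfm_apply]
    have h3 : co b (x - co b x • b) = co b x - co b x * co b b := by
      unfold co; rw [inner_sub_left, inner_smul_left, conj_trivial]; ring
    rw [h3, h2]; ring
  rw [rfm_apply b (rfm b x), h1, rfm_apply, neg_smul]
  abel

theorem opA_rfm (h : RS Φ) {b : E} (hb : b ∈ Φ) (x : E) : opA Φ (rfm b x) = rfm b (opA Φ x) := by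
  rw [opA_apply, opA_apply, map_sum]
  refine (Finset.sum_nbij' (fun a => rfm b a) (fun a => rfm b a) (fun a ha => ?_) (fun a ha => ?_)
    (fun a _ => rfm_rfm h hb a) (fun a _ => rfm_rfm h hb a) (fun a _ => ?_)).symm
  · exact h.refl b hb a ha
  · exact h.refl b hb a ha
  · rw [map_smul]
    congr 1
    exact (h.inner_refl hb x a).symm

theorem opA_root (h : RS Φ) {b : E} (hb : b ∈ Φ) : ∃ k : ℝ, opA Φ b = k • b := by
  refine ⟨co b (opA Φ b) / 2, ?_⟩
  have h1 := opA_rfm h hb b
  have h2 : rfm b b = -b := by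
    rw [rfm_apply, h.co_self hb, two_smul]; abel
  rw [h2, map_neg, rfm_apply] at h1
  have h3 : (2 : ℝ) • opA Φ b = co b (opA Φ b) • b := by
    rw [two_smul]
    have h4 : opA Φ b + opA Φ b = -(-opA Φ b) + opA Φ b := by rw [neg_neg]
    rw [h4, h1]
    abel
  calc opA Φ b = (1 / 2 : ℝ) • ((2 : ℝ) • opA Φ b) := by rw [smul_smul]; norm_num
    _ = (1 / 2 : ℝ) • (co b (opA Φ b) • b) := by rw [h3]
    _ = (co b (opA Φ b) / 2) • b := by rw [smul_smul]; congr 1; ring

/-- Schur's lemma for the Weyl group -/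
theorem schur (h : RS Φ) : ∃ k : ℝ, ∀ x ∈ Submodule.span ℝ (Φ : Set E), opA Φ x = k • x := by
  classical
  have h1 : ∀ b, ∃ k : ℝ, b ∈ Φ → opA Φ b = k • b := by
    intro b
    by_cases hb : b ∈ Φ
    · obtain ⟨k, hk⟩ := opA_root h hb
      exact ⟨k, fun _ => hk⟩
    · exact ⟨0, fun h => absurd h hb⟩
  choose k hk using h1
  obtain ⟨b0, hb0⟩ := h.nonempty
  have hS := h.irr (Φ.filter fun a => k a = k b0) (Finset.filter_subset _ _)
    ⟨b0, Finset.mem_filter.2 ⟨hb0, rfl⟩⟩ (by
      intro a ha b hb hbn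
      obtain ⟨ha1, ha2⟩ := Finset.mem_filter.1 ha
      by_contra hne
      apply hbn
      refine Finset.mem_filter.2 ⟨hb, ?_⟩
      have h2 := opA_symm (Φ := Φ) a b
      rw [hk a ha1, hk b hb, inner_smul_left, inner_smul_right, conj_trivial] at h2
      have h3 := mul_right_cancel₀ hne h2
      rw [← h3, ha2])
  refine ⟨k b0, fun x hx => ?_⟩
  induction hx using Submodule.span_induction with
  | mem a ha =>
    have ha' : a ∈ Φ := ha
    rw [← hS] at ha'
    obtain ⟨ha1, ha2⟩ := Finset.mem_filter.1 ha'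
    rw [hk a ha1, ha2]
  | zero => simp
  | add x y _ _ hx hy => rw [map_add, hx, hy, smul_add]
  | smul r x _ hx => rw [map_smul, hx, smul_comm]

theorem int_root (hN : NRS Φ) {a : E} (ha : a ∈ Φ) {x : E} (hx : ∃ k : ℤ, co a x = k) :
    ∃ k : ℤ, (inner ℝ x a : ℝ) = k := by
  obtain ⟨k, hk⟩ := hx
  have h1 : (inner ℝ x a : ℝ) = co a x * inner ℝ a a / 2 := by
    unfold co
    have := (hN.toRS.inner_pos ha).ne'
    field_simp
  rcases hN.length ha with h2 | h2 | h2
  · exact ⟨k, by rw [h1, hk, h2]; ring⟩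
  · exact ⟨2 * k, by rw [h1, hk, h2]; push_cast; ring⟩
  · exact ⟨3 * k, by rw [h1, hk, h2]; push_cast; ring⟩

/-- the trace identity for root systems with few roots -/
theorem In.small (h : In Φ X n T l y) (hN : NRS Φ) : n ≤ Nat.gcd n T * (24 * Φ.card ^ 2) := by
  classical
  obtain ⟨κ, hκ⟩ := schur h.rs
  obtain ⟨b, hb, hb2⟩ := hN.ex_two
  -- the integers
  have hq : ∀ a, ∃ q : ℤ, a ∈ Φ → (inner ℝ b a : ℝ) = q := by
    intro a
    by_cases ha : a ∈ Φ
    · obtain ⟨q, hq⟩ := int_root hN ha (h.rs.int a ha b hb)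
      exact ⟨q, fun _ => hq⟩
    · exact ⟨0, fun h => absurd h ha⟩
  choose q hq using hq
  have hS : κ * 2 = ((∑ a ∈ Φ, q a ^ 2 : ℤ) : ℝ) := by
    have h1 := hκ b (Submodule.subset_span hb)
    have h2 : (inner ℝ (opA Φ b) b : ℝ) = κ * 2 := by rw [h1, inner_smul_left, conj_trivial, hb2]
    rw [← h2, opA_apply, sum_inner]
    push_cast
    refine Finset.sum_congr rfl fun a ha => ?_
    rw [inner_smul_left, conj_trivial, real_inner_comm b a, hq a ha]
    ring
  set S : ℕ := (∑ a ∈ Φ, q a ^ 2).toNat with hSdef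
  have hSnn : 0 ≤ ∑ a ∈ Φ, q a ^ 2 := Finset.sum_nonneg fun a _ => sq_nonneg _
  have hS' : κ * 2 = (S : ℝ) := by
    rw [hS]
    have : ((S : ℤ) : ℝ) = ((∑ a ∈ Φ, q a ^ 2 : ℤ) : ℝ) := by rw [hSdef, Int.toNat_of_nonneg hSnn]
    rw [Int.cast_natCast] at this
    exact this.symm
  have hSpos : 0 < S := by
    have h1 : q b ^ 2 ≤ ∑ a ∈ Φ, q a ^ 2 := Finset.single_le_sum (fun a _ => sq_nonneg (q a)) hb
    have h2 : q b = 2 := by
      have := hq b hb
      rw [hb2] at this
      exact_mod_cast this.symm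
    rw [h2] at h1
    omega
  have hSle : S ≤ 12 * Φ.card := by
    have h1 : (S : ℝ) ≤ 12 * Φ.card := by
      rw [← hS', hS]
      push_cast
      calc ∑ a ∈ Φ, (q a : ℝ) ^ 2 ≤ ∑ a ∈ Φ, (12 : ℝ) := by
            refine Finset.sum_le_sum fun a ha => ?_
            rw [← hq a ha]
            have h3 := real_inner_mul_inner_self_le b a
            rw [hb2] at h3
            have h4 : (inner ℝ a a : ℝ) ≤ 6 := by
              rcases hN.length ha with h2 | h2 | h2 <;> rw [h2] <;> norm_num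
            have h5 : (inner ℝ b a : ℝ) ^ 2 = inner ℝ b a * inner ℝ b a := by ring
            rw [h5]
            linarith
        _ = 12 * Φ.card := by rw [Finset.sum_const, nsmul_eq_mul]; ring
    exact_mod_cast h1
  obtain ⟨A, hA⟩ : ∃ A : ℤ, 2 * cas Φ l = (A : ℝ) := by
    have h1 : ∀ a, ∃ q : ℤ, a ∈ Φ → (inner ℝ l a : ℝ) = q := by
      intro a
      by_cases ha : a ∈ Φ
      · obtain ⟨q, hq⟩ := int_root hN ha (h.sat.int a ha l h.l_mem)
        exact ⟨q, fun _ => hq⟩
      · exact ⟨0, fun h => absurd h ha⟩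
    choose p hp using h1
    have h2 : ∀ v ∈ AddSubgroup.closure (Φ : Set E), ∃ k : ℤ, (inner ℝ l v : ℝ) = k := by
      intro v hv
      induction hv using AddSubgroup.closure_induction with
      | mem a ha => exact ⟨p a, hp a ha⟩
      | zero => exact ⟨0, by simp⟩
      | add v w _ _ hv hw =>
        obtain ⟨a, ha⟩ := hv
        obtain ⟨b, hb⟩ := hw
        exact ⟨a + b, by rw [inner_add_right, ha, hb]; push_cast; ring⟩
      | neg v _ hv =>
        obtain ⟨a, ha⟩ := hv
        exact ⟨-a, by rw [inner_neg_right, ha]; push_cast; ring⟩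
    obtain ⟨k, hk⟩ := h2 _ (h.sat.coset l h.l_mem (-l) (h.sat.neg l h.l_mem))
    rw [inner_sub_right, inner_neg_right] at hk
    refine ⟨k + ∑ a ∈ Φ, |p a|, ?_⟩
    have h3 : ∑ a ∈ Φ, |(inner ℝ l a : ℝ)| = ∑ a ∈ Φ, (|p a| : ℝ) :=
      Finset.sum_congr rfl fun a ha => by rw [hp a ha]
    unfold cas
    push_cast
    linear_combination hk + h3
  obtain ⟨B, hB⟩ : ∃ B : ℤ, κ * inner ℝ y y = (B : ℝ) := by
    have h1 : ∀ a, ∃ q : ℤ, a ∈ Φ → (inner ℝ a y : ℝ) = q := by
      intro a
      by_cases ha : a ∈ Φ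
      · obtain ⟨q, hq⟩ := h.lev a ha
        exact ⟨q, fun _ => hq⟩
      · exact ⟨0, fun h => absurd h ha⟩
    choose p hp using h1
    refine ⟨∑ a ∈ Φ, p a ^ 2, ?_⟩
    have h2 := hκ y h.y_mem
    have h3 : (inner ℝ (opA Φ y) y : ℝ) = κ * inner ℝ y y := by rw [h2, inner_smul_left, conj_trivial]
    rw [← h3, opA_apply, sum_inner]
    push_cast
    refine Finset.sum_congr rfl fun a ha => ?_
    rw [inner_smul_left, conj_trivial, real_inner_comm a y, hp a ha]
    ring
  have hfr : finrank ℝ (Submodule.span ℝ (Φ : Set E)) ≤ Φ.card := finrank_span_finset_le_card Φ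
  have hpos : 0 < Φ.card := Finset.card_pos.2 h.rs.nonempty
  have h1 := h.idt
  have h2 : ((n * (4 * (A * B)) : ℤ) : ℝ) =
      ((T * ((finrank ℝ (Submodule.span ℝ (Φ : Set E)) + Φ.card) * S) : ℕ) : ℝ) := by
    push_cast
    rw [← hA, ← hB, ← hS']
    linear_combination (κ * 2) * h1
  have h3 : n ∣ T * ((finrank ℝ (Submodule.span ℝ (Φ : Set E)) + Φ.card) * S) := by
    refine Int.natCast_dvd_natCast.1 ⟨4 * (A * B), ?_⟩
    exact_mod_cast h2.symm
  refine (le_of_mul h.n_pos (by positivity) h3).trans (Nat.mul_le_mul_left _ ?_)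
  calc (finrank ℝ (Submodule.span ℝ (Φ : Set E)) + Φ.card) * S ≤ (Φ.card + Φ.card) * (12 * Φ.card) :=
        Nat.mul_le_mul (Nat.add_le_add_right hfr _) hSle
    _ = 24 * Φ.card ^ 2 := by ring

end TF
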