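import Pool.Agent.Helper27.TF.A

/-!
Project TF (MP_b8862a_ag): the trace identity for the classical root systems of rank at least eight.
-/

open Module PF

namespace TF

variable {E : Type*} [NormedAddCommGroup E] [InnerProductSpace ℝ E] {Φ X : Finset E} {m n T : ℕ} {l y : E}

/-- **The trace identity for the classical root systems.** -/
theorem In.cls (h : In Φ X n T l y) (hm : 9 ≤ m) (F : (∃ u : Fin m → E, FrA Φ m u) ∨
    ∃ (e : Fin m → E) (c : ℝ) (d : ℕ), Fr Φ m e c d) :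
    n ≤ 2000000 * Nat.gcd n T ^ 4 ∨ TypeB Φ X ∨ TypeD Φ X ∨
      (l ∈ Φ ∧ ∀ a ∈ Φ, (inner ℝ a a : ℝ) ≤ inner ℝ l l) := by
  have hg : 0 < Nat.gcd n T := Nat.gcd_pos_of_pos_left _ h.n_pos
  rcases F with ⟨u, F⟩ | ⟨e, c, d, F⟩
  · rcases h.a F hm with h1 | h1
    · exact Or.inl h1
    · exact Or.inr (Or.inr (Or.inr h1))
  · rcases h.bcd F hm with h1 | h1
    · left
      have h2 : Nat.gcd n T ^ 3 ≤ Nat.gcd n T ^ 4 := Nat.pow_le_pow_right hg (by norm_num)
      calc n ≤ 64000 * Nat.gcd n T ^ 3 := h1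
        _ ≤ 64000 * Nat.gcd n T ^ 4 := Nat.mul_le_mul_left _ h2
        _ ≤ 2000000 * Nat.gcd n T ^ 4 := Nat.mul_le_mul_right _ (by norm_num)
    · exact Or.inr h1

end TF
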