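import Pool.Agent.Helper27.TF.Frame

/-!
Project TF (MP_b8862a_ag): sums over the roots in the coordinates of `B_m`, `C_m`, `D_m`.
-/

set_option linter.unusedSectionVars false

open Module PF

namespace TF

variable {E : Type*} [NormedAddCommGroup E] [InnerProductSpace ℝ E] {Φ X : Finset E}

section

variable {m : ℕ} {e : Fin m → E} {c : ℝ} {d : ℕ}

theorem Fr.cx_rt (F : Fr Φ m e c d) (s t : ℤ) (i j k : Fin m) :
    cx e c (rt e c s t i j) k = s * (if i = k then 1 else 0) + t * (if j = k then 1 else 0) := by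
  unfold cx
  rw [F.inner_rt_e]
  have := F.pos.ne'
  field_simp

theorem Fr.cx_long (F : Fr Φ m e c d) (r : ℝ) (i k : Fin m) :
    cx e c ((r * c) • e i) k = r * (if i = k then 1 else 0) := by
  unfold cx
  rw [inner_smul_left, F.inner_e]
  have := F.pos.ne'
  simp only [conj_trivial]
  field_simp

/-- the sign of an ordered pair -/
def sg (p : Fin m × Fin m) : ℤ := if p.1 < p.2 then 1 else -1

theorem sg_or (p : Fin m × Fin m) : sg p = 1 ∨ sg p = -1 := by
  unfold sg
  split_ifs
  · exact Or.inl rfl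
  · exact Or.inr rfl

open Classical in
theorem Fr.image (F : Fr Φ m e c d) : Φ =
    ((Finset.univ : Finset (Fin m)).offDiag.image fun p => rt e c 1 (-1) p.1 p.2) ∪
    ((Finset.univ : Finset (Fin m)).offDiag.image fun p => rt e c (sg p) (sg p) p.1 p.2) ∪
    (if d = 0 then ∅ else ((Finset.univ : Finset (Fin m)).image fun i => ((d : ℝ) * c) • e i) ∪
      ((Finset.univ : Finset (Fin m)).image fun i => (-(d : ℝ) * c) • e i)) := by
  ext a
  rw [F.mem]
  simp only [Finset.mem_union, Finset.mem_image, Finset.mem_offDiag, Finset.mem_univ, true_and]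
  constructor
  · rintro (⟨i, j, hij, h⟩ | ⟨hd, i, h⟩)
    · left
      rcases h with rfl | rfl | rfl
      · right
        rcases lt_or_gt_of_ne hij with h | h
        · exact ⟨(i, j), hij, by simp [sg, h, rt]⟩
        · exact ⟨(j, i), hij.symm, by simp [sg, h, rt, add_comm]⟩
      · left
        exact ⟨(i, j), hij, by simp [rt, sub_eq_add_neg]⟩
      · right
        rcases lt_or_gt_of_ne hij with h | h
        · refine ⟨(j, i), hij.symm, ?_⟩
          simp only [sg, not_lt.2 h.le, if_false, rt, Int.cast_neg, Int.cast_one, neg_smul, one_smul]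
          rw [← smul_neg, neg_add, add_comm]
        · refine ⟨(i, j), hij, ?_⟩
          simp only [sg, not_lt.2 h.le, if_false, rt, Int.cast_neg, Int.cast_one, neg_smul, one_smul]
          rw [← smul_neg, neg_add]
    · right
      rw [if_neg hd]
      simp only [Finset.mem_union, Finset.mem_image, Finset.mem_univ, true_and]
      rcases h with rfl | rfl
      · exact Or.inl ⟨i, rfl⟩
      · exact Or.inr ⟨i, by rw [neg_mul, neg_smul]⟩
  · rintro ((⟨p, hp, rfl⟩ | ⟨p, hp, rfl⟩) | h)
    · exact Or.inl ⟨p.1, p.2, hp, Or.inr (Or.inl (by simp [rt, sub_eq_add_neg]))⟩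
    · left
      refine ⟨p.1, p.2, hp, ?_⟩
      rcases sg_or p with h | h
      · rw [h]; exact Or.inl (by simp [rt])
      · rw [h]
        refine Or.inr (Or.inr ?_)
        simp only [rt, Int.cast_neg, Int.cast_one, neg_smul, one_smul]
        rw [← smul_neg, neg_add]
    · right
      by_cases hd : d = 0
      · rw [if_pos hd] at h
        exact absurd h (Finset.notMem_empty _)
      · rw [if_neg hd] at h
        simp only [Finset.mem_union, Finset.mem_image, Finset.mem_univ, true_and] at h
        refine ⟨hd, ?_⟩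
        rcases h with ⟨i, rfl⟩ | ⟨i, rfl⟩
        · exact ⟨i, Or.inl rfl⟩
        · exact ⟨i, Or.inr (by rw [neg_mul, neg_smul])⟩

theorem Fr.sum (F : Fr Φ m e c d) (G : E → ℝ) (hG : ∀ a, G (-a) = G a) :
    ∑ a ∈ Φ, G a = ∑ p ∈ (Finset.univ : Finset (Fin m)).offDiag, (G (rt e c 1 1 p.1 p.2) + G (rt e c 1 (-1) p.1 p.2))
      + (if d = 0 then 0 else 2 * ∑ i, G (((d : ℝ) * c) • e i)) := by
  classical
  have hcx : ∀ {a b : E}, a = b → ∀ k, cx e c a k = cx e c b k := fun h k => by rw [h]
  have hd1 : Disjoint ((Finset.univ : Finset (Fin m)).offDiag.image fun p => rt e c 1 (-1) p.1 p.2)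
      ((Finset.univ : Finset (Fin m)).offDiag.image fun p => rt e c (sg p) (sg p) p.1 p.2) := by
    rw [Finset.disjoint_left]
    intro a ha hb
    obtain ⟨p, hp, rfl⟩ := Finset.mem_image.1 ha
    obtain ⟨q, hq, h⟩ := Finset.mem_image.1 hb
    have hp' := (Finset.mem_offDiag.1 hp).2.2
    have hq' := (Finset.mem_offDiag.1 hq).2.2
    have h1 := hcx h p.1
    have h2 := hcx h p.2
    rw [F.cx_rt, F.cx_rt] at h1 h2
    rw [if_pos rfl, if_neg hp'.symm] at h1
    rw [if_neg hp', if_pos rfl] at h2
    have hs : (sg q : ℝ) = 1 ∨ (sg q : ℝ) = -1 := by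
      rcases sg_or q with h | h <;> rw [h]
      · left; norm_num
      · right; norm_num
    rcases hs with hs | hs <;> rw [hs] at h1 h2
    · have : (0 : ℝ) ≤ (1 : ℝ) * (if q.1 = p.2 then 1 else 0) + 1 * (if q.2 = p.2 then 1 else 0) := by positivity
      rw [h2] at this
      norm_num at this
    · have : (0 : ℝ) ≤ (if q.1 = p.1 then (1 : ℝ) else 0) + (if q.2 = p.1 then 1 else 0) := by positivity
      push_cast at h1
      linarith
  have hnorm1 : ∀ p ∈ (Finset.univ : Finset (Fin m)).offDiag,
      (inner ℝ (rt e c 1 (-1) p.1 p.2) (rt e c 1 (-1) p.1 p.2) : ℝ) = 2 * c ^ 2 := fun p hp =>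
    F.inner_rt_self (Finset.mem_offDiag.1 hp).2.2 (Or.inl rfl) (Or.inr rfl)
  have hnorm2 : ∀ p ∈ (Finset.univ : Finset (Fin m)).offDiag,
      (inner ℝ (rt e c (sg p) (sg p) p.1 p.2) (rt e c (sg p) (sg p) p.1 p.2) : ℝ) = 2 * c ^ 2 := fun p hp =>
    F.inner_rt_self (Finset.mem_offDiag.1 hp).2.2 (sg_or p) (sg_or p)
  have hnorm3 : ∀ (r : ℝ) i, (inner ℝ ((r * c) • e i) ((r * c) • e i) : ℝ) = r ^ 2 * c ^ 2 := by
    intro r i
    rw [inner_smul_left, inner_smul_right, F.inner_e, if_pos rfl]
    simp only [conj_trivial]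
    ring
  have hc2 : (0 : ℝ) < c ^ 2 := by have := F.pos; positivity
  have hd2 : Disjoint (((Finset.univ : Finset (Fin m)).offDiag.image fun p => rt e c 1 (-1) p.1 p.2) ∪
      ((Finset.univ : Finset (Fin m)).offDiag.image fun p => rt e c (sg p) (sg p) p.1 p.2))
      (if d = 0 then ∅ else ((Finset.univ : Finset (Fin m)).image fun i => ((d : ℝ) * c) • e i) ∪
      ((Finset.univ : Finset (Fin m)).image fun i => (-(d : ℝ) * c) • e i)) := by
    rw [Finset.disjoint_left]
    intro a ha hb
    have h1 : (inner ℝ a a : ℝ) = 2 * c ^ 2 := by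
      rcases Finset.mem_union.1 ha with h | h
      · obtain ⟨p, hp, rfl⟩ := Finset.mem_image.1 h
        exact hnorm1 p hp
      · obtain ⟨p, hp, rfl⟩ := Finset.mem_image.1 h
        exact hnorm2 p hp
    by_cases hd : d = 0
    · rw [if_pos hd] at hb
      exact absurd hb (Finset.notMem_empty _)
    · rw [if_neg hd] at hb
      have h2 : (inner ℝ a a : ℝ) = (d : ℝ) ^ 2 * c ^ 2 := by
        rcases Finset.mem_union.1 hb with h | h
        · obtain ⟨i, _, rfl⟩ := Finset.mem_image.1 h
          rw [hnorm3]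
        · obtain ⟨i, _, rfl⟩ := Finset.mem_image.1 h
          rw [hnorm3]; ring
      have h3 : (d : ℝ) ^ 2 = 2 := by
        have := h1.symm.trans h2
        exact (mul_right_cancel₀ hc2.ne' this).symm
      have h4 : d ^ 2 = 2 := by exact_mod_cast h3
      have h5 := F.le
      interval_cases d <;> omega
  have hi1 : Set.InjOn (fun p : Fin m × Fin m => rt e c 1 (-1) p.1 p.2)
      ((Finset.univ : Finset (Fin m)).offDiag : Set (Fin m × Fin m)) := by
    intro p hp q hq h
    have hp' := (Finset.mem_offDiag.1 hp).2.2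
    have hq' := (Finset.mem_offDiag.1 hq).2.2
    have h1 := hcx h p.1
    have h2 := hcx h p.2
    rw [F.cx_rt, F.cx_rt, if_pos rfl, if_neg hp'.symm] at h1
    rw [F.cx_rt, F.cx_rt, if_neg hp', if_pos rfl] at h2
    have h3 : q.1 = p.1 := by
      by_contra hc
      rw [if_neg hc] at h1
      split_ifs at h1 <;> norm_num at h1
    have h4 : q.2 = p.2 := by
      by_contra hc
      rw [if_neg hc] at h2
      split_ifs at h2 <;> norm_num at h2
    exact Prod.ext h3.symm h4.symm
  have hi2 : Set.InjOn (fun p : Fin m × Fin m => rt e c (sg p) (sg p) p.1 p.2)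
      ((Finset.univ : Finset (Fin m)).offDiag : Set (Fin m × Fin m)) := by
    intro p hp q hq h
    have hp' := (Finset.mem_offDiag.1 hp).2.2
    have hq' := (Finset.mem_offDiag.1 hq).2.2
    have h1 := hcx h p.1
    have h2 := hcx h p.2
    rw [F.cx_rt, F.cx_rt, if_pos rfl, if_neg hp'.symm] at h1
    rw [F.cx_rt, F.cx_rt, if_neg hp', if_pos rfl] at h2
    have h3 : q.1 = p.1 ∨ q.2 = p.1 := by
      by_contra hc
      push Not at hc
      rw [if_neg hc.1, if_neg hc.2] at h1
      rcases sg_or p with h | h <;> rw [h] at h1 <;> norm_num at h1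
    have h4 : q.1 = p.2 ∨ q.2 = p.2 := by
      by_contra hc
      push Not at hc
      rw [if_neg hc.1, if_neg hc.2] at h2
      rcases sg_or p with h | h <;> rw [h] at h2 <;> norm_num at h2
    have hsg : sg p = sg q := by
      have h5 : q.1 = p.1 → q.2 ≠ p.1 := fun h h' => hq' (h.trans h'.symm)
      rcases h3 with h3 | h3
      · rw [if_pos h3, if_neg (h5 h3)] at h1
        have : (sg p : ℝ) = sg q := by linarith
        exact_mod_cast this
      · have h6 : q.1 ≠ p.1 := fun h => h5 h h3
        rw [if_neg h6, if_pos h3] at h1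
        have : (sg p : ℝ) = sg q := by linarith
        exact_mod_cast this
    rcases h3 with h3 | h3
    · rcases h4 with h4 | h4
      · exact absurd (h3.symm.trans h4) hp'
      · exact Prod.ext h3.symm h4.symm
    · rcases h4 with h4 | h4
      · exfalso
        unfold sg at hsg
        rw [h3, h4] at hsg
        rcases lt_or_gt_of_ne hp' with h | h
        · rw [if_pos h, if_neg (not_lt.2 h.le)] at hsg
          norm_num at hsg
        · rw [if_neg (not_lt.2 h.le), if_pos h] at hsg
          norm_num at hsg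
      · exact absurd (h3.symm.trans h4) hp'
  rw [F.image, Finset.sum_union hd2, Finset.sum_union hd1, Finset.sum_image hi1, Finset.sum_image hi2,
    Finset.sum_add_distrib, add_comm (∑ p ∈ (Finset.univ : Finset (Fin m)).offDiag, G (rt e c 1 (-1) p.1 p.2))]
  congr 1
  · congr 1
    refine Finset.sum_congr rfl fun p _ => ?_
    rcases sg_or p with h | h
    · rw [h]
    · rw [h, ← hG]
      congr 1
      simp only [rt, Int.cast_neg, Int.cast_one, neg_smul, one_smul]
      rw [← smul_neg, neg_add, neg_neg, neg_neg]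
  · by_cases hd : d = 0
    · rw [if_pos hd, if_pos hd, Finset.sum_empty]
    · have hd0 : (0 : ℝ) < d := by
        have : 0 < d := Nat.pos_of_ne_zero hd
        exact_mod_cast this
      have hi3 : ∀ r : ℝ, r ≠ 0 → Set.InjOn (fun i : Fin m => (r * c) • e i)
          ((Finset.univ : Finset (Fin m)) : Set (Fin m)) := by
        intro r hr i _ j _ h
        have h1 := hcx h i
        rw [F.cx_long, F.cx_long, if_pos rfl] at h1
        by_contra hc
        rw [if_neg (Ne.symm hc)] at h1
        apply hr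
        linarith
      rw [if_neg hd, if_neg hd, Finset.sum_union, Finset.sum_image (hi3 _ hd0.ne'),
        Finset.sum_image (hi3 _ (neg_ne_zero.2 hd0.ne')), two_mul]
      · congr 1
        refine Finset.sum_congr rfl fun i _ => ?_
        rw [neg_mul, neg_smul, hG]
      · rw [Finset.disjoint_left]
        intro a ha hb
        obtain ⟨i, _, rfl⟩ := Finset.mem_image.1 ha
        obtain ⟨j, _, h⟩ := Finset.mem_image.1 hb
        have h1 := hcx h i
        rw [F.cx_long, F.cx_long, if_pos rfl] at h1
        have h2 : (0 : ℝ) ≤ if j = i then (1 : ℝ) else 0 := by positivity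
        nlinarith

theorem offDiag_card : (((Finset.univ : Finset (Fin m)).offDiag.card : ℕ) : ℝ) = (m : ℝ) * (m - 1) := by
  rw [Finset.offDiag_card, Finset.card_univ, Fintype.card_fin, Nat.cast_sub (Nat.le_mul_self m)]
  push_cast
  ring

theorem Fr.card (F : Fr Φ m e c d) : (Φ.card : ℝ) = 2 * m * (m - 1) + (if d = 0 then (0 : ℝ) else 2 * (m : ℝ)) := by
  have h1 := F.sum (fun _ => 1) (fun _ => rfl)
  simp only [Finset.sum_const, nsmul_eq_mul, mul_one, Finset.card_univ, Fintype.card_fin] at h1
  rw [h1, offDiag_card]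
  split_ifs <;> ring

/-- the span of the roots is the span of the frame -/
theorem Fr.span (F : Fr Φ m e c d) (hm : 2 ≤ m) :
    Submodule.span ℝ (Φ : Set E) = Submodule.span ℝ (Set.range e) := by
  have hc := F.pos.ne'
  apply le_antisymm
  · rw [Submodule.span_le]
    intro a ha
    have he : ∀ i, e i ∈ Submodule.span ℝ (Set.range e) := fun i => Submodule.subset_span ⟨i, rfl⟩
    rcases (F.mem a).1 ha with ⟨i, j, _, h⟩ | ⟨_, i, h⟩
    · rcases h with rfl | rfl | rfl
      · exact Submodule.smul_mem _ _ (Submodule.add_mem _ (he i) (he j))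
      · exact Submodule.smul_mem _ _ (Submodule.sub_mem _ (he i) (he j))
      · exact Submodule.neg_mem _ (Submodule.smul_mem _ _ (Submodule.add_mem _ (he i) (he j)))
    · rcases h with rfl | rfl
      · exact Submodule.smul_mem _ _ (he i)
      · exact Submodule.neg_mem _ (Submodule.smul_mem _ _ (he i))
  · rw [Submodule.span_le]
    rintro _ ⟨i, rfl⟩
    obtain ⟨j, hij⟩ : ∃ j, i ≠ j := by
      have : Nontrivial (Fin m) := Fin.nontrivial_iff_two_le.2 hm
      obtain ⟨j, hj⟩ := exists_ne i
      exact ⟨j, hj.symm⟩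
    have h1 := F.rt_mem hij (s := 1) (t := 1) (Or.inl rfl) (Or.inl rfl)
    have h2 := F.rt_mem hij (s := 1) (t := -1) (Or.inl rfl) (Or.inr rfl)
    have h3 : e i = (1 / (2 * c)) • (rt e c 1 1 i j + rt e c 1 (-1) i j) := by
      simp only [rt, Int.cast_neg, Int.cast_one, neg_smul, one_smul]
      rw [← smul_add, smul_smul]
      have h4 : e i + e j + (e i + -e j) = (2 : ℝ) • e i := by rw [two_smul]; abel
      rw [h4, smul_smul]
      have h5 : 1 / (2 * c) * c * 2 = 1 := by field_simp
      rw [h5, one_smul]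
    rw [h3]
    exact Submodule.smul_mem _ _ (Submodule.add_mem _ (Submodule.subset_span h1) (Submodule.subset_span h2))

theorem Fr.finrank (F : Fr Φ m e c d) (hm : 2 ≤ m) : finrank ℝ (Submodule.span ℝ (Φ : Set E)) = m := by
  rw [F.span hm, finrank_span_eq_card F.on.linearIndependent, Fintype.card_fin]

/-- expansion in coordinates -/
theorem Fr.expand (F : Fr Φ m e c d) (hm : 2 ≤ m) {x : E} (hx : x ∈ Submodule.span ℝ (Φ : Set E)) :
    x = ∑ i, (inner ℝ x (e i) : ℝ) • e i := by
  rw [F.span hm] at hx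
  induction hx using Submodule.span_induction with
  | mem x hx =>
    obtain ⟨j, rfl⟩ := hx
    rw [Finset.sum_eq_single j]
    · rw [F.inner_e, if_pos rfl, one_smul]
    · intro i _ hi
      rw [F.inner_e, if_neg (Ne.symm hi), zero_smul]
    · intro h; exact absurd (Finset.mem_univ j) h
  | zero => simp
  | add x y _ _ hx hy =>
    conv_lhs => rw [hx, hy]
    rw [← Finset.sum_add_distrib]
    refine Finset.sum_congr rfl fun i _ => ?_
    rw [inner_add_left, add_smul]
  | smul r x _ hx =>
    conv_lhs => rw [hx]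
    rw [Finset.smul_sum]
    refine Finset.sum_congr rfl fun i _ => ?_
    rw [inner_smul_left, smul_smul, conj_trivial]

theorem Fr.inner_eq (F : Fr Φ m e c d) (hm : 2 ≤ m) {x : E} (hx : x ∈ Submodule.span ℝ (Φ : Set E)) (y : E) :
    (inner ℝ x y : ℝ) = ∑ i, inner ℝ x (e i) * inner ℝ y (e i) := by
  conv_lhs => rw [F.expand hm hx]
  rw [sum_inner]
  refine Finset.sum_congr rfl fun i _ => ?_
  rw [inner_smul_left, conj_trivial, real_inner_comm y (e i)]

/-- the weights are in the span of the roots -/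
theorem Sat.span27 (hX : Sat Φ X) {x : E} (hx : x ∈ X) : x ∈ Submodule.span ℝ (Φ : Set E) := by
  have h1 := hX.coset x hx (-x) (hX.neg x hx)
  have h2 : x - -x ∈ Submodule.span ℝ (Φ : Set E) := by
    refine (AddSubgroup.closure_le (K := (Submodule.span ℝ (Φ : Set E)).toAddSubgroup)).2 ?_ h1
    intro a ha
    exact Submodule.subset_span ha
  have h3 : x = (1 / 2 : ℝ) • (x - -x) := by
    rw [sub_neg_eq_add, ← two_smul ℝ, smul_smul]
    norm_num
  rw [h3]
  exact Submodule.smul_mem _ _ h2

theorem Fr.eq_of_cx (F : Fr Φ m e c d) (hm : 2 ≤ m) {x y : E} (hx : x ∈ Submodule.span ℝ (Φ : Set E))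
    (hy : y ∈ Submodule.span ℝ (Φ : Set E)) (h : ∀ i, cx e c x i = cx e c y i) : x = y := by
  rw [F.expand hm hx, F.expand hm hy]
  refine Finset.sum_congr rfl fun i _ => ?_
  have h1 := h i
  unfold cx at h1
  have h2 := F.pos.ne'
  rw [div_left_inj' h2] at h1
  rw [h1]

end

end TF
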