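import Pool.Agent.Helper27.TF.Sum

/-!
Project TF (MP_b8862a_ag): the trace identity in the coordinates of `B_m`, `C_m`, `D_m`.
-/

set_option linter.unusedSectionVars false

open Module PF

namespace TF

theorem le_of_mul {n T q : ℕ} (hn : 0 < n) (hq : 0 < q) (h : n ∣ T * q) : n ≤ Nat.gcd n T * q := by
  rw [← Nat.gcd_mul_right]
  refine Nat.le_of_dvd (Nat.gcd_pos_of_pos_left _ (Nat.mul_pos hn hq)) (Nat.dvd_gcd (Dvd.intro _ rfl) h)

theorem choose_three (m : ℕ) : 6 * m.choose 3 = m * (m - 1) * (m - 2) := by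
  have h := Nat.descFactorial_eq_factorial_mul_choose m 3
  simp only [Nat.descFactorial, Nat.factorial] at h
  rw [show (6 : ℕ) = (2 + 1) * ((1 + 1) * ((0 + 1) * 1)) by norm_num, ← h]
  simp only [Nat.sub_zero, mul_one]
  ring

theorem choose_two (m : ℕ) : 2 * m.choose 2 = m * (m - 1) := by
  have h := Nat.descFactorial_eq_factorial_mul_choose m 2
  simp only [Nat.descFactorial, Nat.factorial] at h
  rw [show (2 : ℕ) = (1 + 1) * ((0 + 1) * 1) by norm_num, ← h]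
  simp only [Nat.sub_zero, mul_one]
  ring

theorem big_three {m n g : ℕ} (hm : 9 ≤ m) (h1 : m.choose 3 ≤ n) (h2 : n ≤ g * (4 * (m + 2 * m ^ 2))) :
    n ≤ 64000 * g ^ 3 := by
  have h3 := choose_three m
  obtain ⟨t, rfl⟩ : ∃ t, m = t + 2 := ⟨m - 2, by omega⟩
  have h4 : t + 2 - 1 = t + 1 := by omega
  have h5 : t + 2 - 2 = t := by omega
  rw [h4, h5] at h3
  have h6 : (t + 2) * (t + 1) * t ≤ 6 * (g * (4 * ((t + 2) + 2 * (t + 2) ^ 2))) := by
    rw [← h3]; exact Nat.mul_le_mul_left 6 (h1.trans h2)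
  have h7 : (t + 2) * ((t + 1) * t) ≤ (t + 2) * (24 * g * (2 * t + 5)) := by
    calc (t + 2) * ((t + 1) * t) = (t + 2) * (t + 1) * t := by ring
      _ ≤ _ := h6
      _ = (t + 2) * (24 * g * (2 * t + 5)) := by ring
  have h8 : (t + 1) * t ≤ 24 * g * (2 * t + 5) := Nat.le_of_mul_le_mul_left h7 (by omega)
  have h9 : (t + 1) * t ≤ (72 * g) * t := by
    calc (t + 1) * t ≤ 24 * g * (2 * t + 5) := h8
      _ ≤ 24 * g * (3 * t) := Nat.mul_le_mul_left _ (by omega)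
      _ = (72 * g) * t := by ring
  have h10 : t + 1 ≤ 72 * g := Nat.le_of_mul_le_mul_right h9 (by omega)
  have h11 : t + 2 ≤ 73 * g := by omega
  calc n ≤ g * (4 * ((t + 2) + 2 * (t + 2) ^ 2)) := h2
    _ ≤ g * (4 * (3 * (t + 2) ^ 2)) := by
        refine Nat.mul_le_mul_left _ (Nat.mul_le_mul_left _ ?_)
        nlinarith
    _ ≤ g * (4 * (3 * (73 * g) ^ 2)) := by
        refine Nat.mul_le_mul_left _ (Nat.mul_le_mul_left _ (Nat.mul_le_mul_left _ ?_))
        exact Nat.pow_le_pow_left h11 2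
    _ = 63948 * g ^ 3 := by ring
    _ ≤ 64000 * g ^ 3 := Nat.mul_le_mul_right _ (by norm_num)

theorem big_two {m n g : ℕ} (hm : 9 ≤ m) (hg : 0 < g) (h1 : m.choose 2 ≤ n) (h2 : n ≤ g * (2 * m + 1)) :
    n ≤ 64000 * g ^ 3 := by
  have h3 := choose_two m
  obtain ⟨t, rfl⟩ : ∃ t, m = t + 1 := ⟨m - 1, by omega⟩
  have h4 : t + 1 - 1 = t := by omega
  rw [h4] at h3
  have h6 : (t + 1) * t ≤ 2 * (g * (2 * (t + 1) + 1)) := by
    rw [← h3]; exact Nat.mul_le_mul_left 2 (h1.trans h2)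
  have h7 : (t + 1) * t ≤ (t + 1) * (6 * g) := by
    calc (t + 1) * t ≤ 2 * (g * (2 * (t + 1) + 1)) := h6
      _ ≤ 2 * (g * (3 * (t + 1))) := Nat.mul_le_mul_left _ (Nat.mul_le_mul_left _ (by omega))
      _ = (t + 1) * (6 * g) := by ring
  have h8 : t ≤ 6 * g := Nat.le_of_mul_le_mul_left h7 (by omega)
  have hg2 : g ≤ g ^ 3 := Nat.le_self_pow (by norm_num) g
  have hg3 : g ^ 2 ≤ g ^ 3 := Nat.pow_le_pow_right hg (by norm_num)
  calc n ≤ g * (2 * (t + 1) + 1) := h2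
    _ ≤ g * (2 * (6 * g + 1) + 1) := Nat.mul_le_mul_left _ (by omega)
    _ = 12 * g ^ 2 + 3 * g := by ring
    _ ≤ 12 * g ^ 3 + 3 * g ^ 3 := by omega
    _ ≤ 64000 * g ^ 3 := by omega

variable {E : Type*} [NormedAddCommGroup E] [InnerProductSpace ℝ E] {Φ X : Finset E}

section

variable {m : ℕ} {e : Fin m → E} {c : ℝ} {d : ℕ}

theorem Fr.y_int (F : Fr Φ m e c d) (hm : 2 ≤ m) {y : E} (hy : y ∈ Submodule.span ℝ (Φ : Set E))
    (hlev : ∀ a ∈ Φ, ∃ k : ℤ, (inner ℝ a y : ℝ) = k) : ∃ B : ℤ, 4 * c ^ 2 * inner ℝ y y = (B : ℝ) := by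
  have h1 : ∀ i, ∃ k : ℤ, 2 * c * inner ℝ y (e i) = (k : ℝ) := by
    intro i
    obtain ⟨j, hij⟩ : ∃ j, i ≠ j := by
      have : Nontrivial (Fin m) := Fin.nontrivial_iff_two_le.2 hm
      obtain ⟨j, hj⟩ := exists_ne i
      exact ⟨j, hj.symm⟩
    obtain ⟨a, ha⟩ := hlev _ (F.rt_mem hij (s := 1) (t := 1) (Or.inl rfl) (Or.inl rfl))
    obtain ⟨b, hb⟩ := hlev _ (F.rt_mem hij (s := 1) (t := -1) (Or.inl rfl) (Or.inr rfl))
    rw [real_inner_comm, inner_rt] at ha hb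
    refine ⟨a + b, ?_⟩
    push_cast at ha hb ⊢
    linarith
  choose k hk using h1
  refine ⟨∑ i, k i ^ 2, ?_⟩
  rw [F.inner_eq hm hy, Finset.mul_sum]
  push_cast
  refine Finset.sum_congr rfl fun i _ => ?_
  rw [← hk i]
  ring

theorem Fr.cas_int (F : Fr Φ m e c d) (hX : Sat Φ X) (hm : 2 ≤ m) {x : E} (hx : x ∈ X) :
    ∃ A : ℤ, 4 * cas Φ x = (A : ℝ) * c ^ 2 := by
  classical
  have hc := F.pos
  have h1 : ∀ i, ∃ k : ℤ, 2 * cx e c x i = (k : ℝ) := by
    intro i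
    rcases F.int_or hX hm hx with ⟨z, hz⟩ | ⟨z, hz⟩
    · exact ⟨2 * z i, by rw [hz i]; push_cast; ring⟩
    · exact ⟨2 * z i + 1, by rw [hz i]; push_cast; ring⟩
  choose k hk using h1
  have h2 : ∀ i, inner ℝ x (e i) = c * k i / 2 := by
    intro i
    have := hk i
    unfold cx at this
    field_simp at this
    linarith
  have h3 : ∀ a ∈ Φ, ∃ q : ℤ, 2 * |inner ℝ x a| = (q : ℝ) * c ^ 2 := by
    intro a ha
    rw [F.image] at ha
    have key : ∀ s t : ℤ, ∀ i j, ∃ q : ℤ, 2 * |inner ℝ x (rt e c s t i j)| = (q : ℝ) * c ^ 2 := by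
      intro s t i j
      refine ⟨|s * k i + t * k j|, ?_⟩
      rw [inner_rt, h2, h2]
      have h4 : c * (s * (c * k i / 2) + t * (c * k j / 2)) = (((s * k i + t * k j : ℤ) : ℝ)) * (c ^ 2 / 2) := by
        push_cast; ring
      rw [h4, abs_mul, abs_of_pos (by positivity : (0 : ℝ) < c ^ 2 / 2), Int.cast_abs]
      ring
    rcases Finset.mem_union.1 ha with h | h
    · rcases Finset.mem_union.1 h with h | h
      · obtain ⟨p, _, rfl⟩ := Finset.mem_image.1 h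
        exact key _ _ _ _
      · obtain ⟨p, _, rfl⟩ := Finset.mem_image.1 h
        exact key _ _ _ _
    · have key2 : ∀ (s : ℤ) i, ∃ q : ℤ, 2 * |inner ℝ x (((s : ℝ) * c) • e i)| = (q : ℝ) * c ^ 2 := by
        intro s i
        refine ⟨|s * k i|, ?_⟩
        rw [inner_smul_right, h2]
        have h4 : (s : ℝ) * c * (c * k i / 2) = (((s * k i : ℤ) : ℝ)) * (c ^ 2 / 2) := by
          push_cast; ring
        rw [h4, abs_mul, abs_of_pos (by positivity : (0 : ℝ) < c ^ 2 / 2), Int.cast_abs]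
        ring
      by_cases hd : d = 0
      · rw [if_pos hd] at h
        exact absurd h (Finset.notMem_empty _)
      · rw [if_neg hd] at h
        rcases Finset.mem_union.1 h with h | h
        · obtain ⟨i, _, rfl⟩ := Finset.mem_image.1 h
          exact key2 d i
        · obtain ⟨i, _, rfl⟩ := Finset.mem_image.1 h
          have := key2 (-(d : ℤ)) i
          push_cast at this
          exact this
  have h4 : ∀ a, ∃ q : ℤ, a ∈ Φ → 2 * |inner ℝ x a| = (q : ℝ) * c ^ 2 := by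
    intro a
    by_cases ha : a ∈ Φ
    · obtain ⟨q, hq⟩ := h3 a ha
      exact ⟨q, fun _ => hq⟩
    · exact ⟨0, fun h => absurd h ha⟩
  choose q hq using h4
  refine ⟨∑ i, k i ^ 2 + ∑ a ∈ Φ, q a, ?_⟩
  have h5 : (∑ a ∈ Φ, |(inner ℝ x a : ℝ)|) * 2 = (∑ a ∈ Φ, (q a : ℝ)) * c ^ 2 := by
    rw [Finset.sum_mul, Finset.sum_mul]
    refine Finset.sum_congr rfl fun a ha => ?_
    rw [mul_comm]; exact hq a ha
  have h6 : (inner ℝ x x : ℝ) * 4 = (∑ i, (k i : ℝ) ^ 2) * c ^ 2 := by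
    rw [F.inner_eq hm (Sat.span27 hX hx), Finset.sum_mul, Finset.sum_mul]
    refine Finset.sum_congr rfl fun i _ => ?_
    rw [h2]; ring
  unfold cas
  push_cast
  linear_combination h6 + h5

theorem Fr.card_le (F : Fr Φ m e c d) : Φ.card ≤ 2 * m ^ 2 := by
  have h1 := F.card
  have h2 : (Φ.card : ℝ) ≤ 2 * (m : ℝ) ^ 2 := by
    rw [h1]
    split_ifs <;> nlinarith [(Nat.cast_nonneg m : (0 : ℝ) ≤ m)]
  exact_mod_cast h2

variable {n T : ℕ} {l y : E}

theorem In.n_pos (h : In Φ X n T l y) : 0 < n := lt_of_lt_of_le (Finset.card_pos.2 ⟨l, h.l_mem⟩) h.card_le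

/-- the trace identity in general -/
theorem In.general (h : In Φ X n T l y) (F : Fr Φ m e c d) (hm : 9 ≤ m) :
    n ≤ Nat.gcd n T * (4 * (m + 2 * m ^ 2)) := by
  obtain ⟨A, hA⟩ := F.cas_int h.sat (by omega) h.l_mem
  obtain ⟨B, hB⟩ := F.y_int (by omega) h.y_mem h.lev
  have hc := F.pos
  have h1 := h.idt
  rw [F.finrank (by omega)] at h1
  have h2 : ((n * (A * B) : ℤ) : ℝ) = ((T * (4 * (m + Φ.card)) : ℕ) : ℝ) := by
    push_cast
    have h3 : (n : ℝ) * (A * B) * c ^ 2 = 4 * n * (4 * cas Φ l) * inner ℝ y y * c ^ 2 := by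
      rw [← hB, hA]; ring
    have h4 : (n : ℝ) * (A * B) = 4 * n * (4 * cas Φ l) * inner ℝ y y :=
      mul_right_cancel₀ (by positivity : (c ^ 2 : ℝ) ≠ 0) h3
    rw [h4]
    linear_combination 4 * h1
  have h3 : (n : ℤ) ∣ ((T * (4 * (m + Φ.card)) : ℕ) : ℤ) := ⟨A * B, by exact_mod_cast h2.symm⟩
  have h4 : n ∣ T * (4 * (m + Φ.card)) := Int.natCast_dvd_natCast.1 h3
  have h5 := le_of_mul h.n_pos (by omega) h4
  refine h5.trans (Nat.mul_le_mul_left _ (Nat.mul_le_mul_left _ (Nat.add_le_add_left F.card_le _)))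

/-- sum over the ordered pairs -/
theorem sum_off (G : Fin m → Fin m → ℝ) : ∑ p ∈ (Finset.univ : Finset (Fin m)).offDiag, G p.1 p.2 =
    ∑ i, ∑ j, G i j - ∑ i, G i i := by
  have h1 : ∑ i, ∑ j, G i j = ∑ p ∈ (Finset.univ : Finset (Fin m)) ×ˢ Finset.univ, G p.1 p.2 := by
    rw [Finset.sum_product]
  rw [h1, ← Finset.diag_union_offDiag, Finset.sum_union (Finset.disjoint_diag_offDiag _), Finset.sum_diag]
  ring

/-- the Casimir constant of an integral vector -/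
theorem Fr.cas_eq (F : Fr Φ m e c d) (hm : 2 ≤ m) {x : E} (hx : x ∈ Submodule.span ℝ (Φ : Set E))
    (z : Fin m → ℤ) (hz : ∀ i, cx e c x i = z i) :
    cas Φ x = c ^ 2 * (∑ i, (z i : ℝ) ^ 2 +
      ∑ p ∈ (Finset.univ : Finset (Fin m)).offDiag, max |(z p.1 : ℝ)| |(z p.2 : ℝ)| + d * ∑ i, |(z i : ℝ)|) := by
  have hc := F.pos
  have h2 : ∀ i, inner ℝ x (e i) = c * z i := by
    intro i
    have := hz i
    unfold cx at this
    field_simp at this
    linarith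
  have h3 : (inner ℝ x x : ℝ) = c ^ 2 * ∑ i, (z i : ℝ) ^ 2 := by
    rw [F.inner_eq hm hx, Finset.mul_sum]
    refine Finset.sum_congr rfl fun i _ => ?_
    rw [h2]; ring
  have h4 := F.sum (fun a => |inner ℝ x a|) (fun a => by rw [inner_neg_right, abs_neg])
  have h5 : ∀ p : Fin m × Fin m, |(inner ℝ x (rt e c 1 1 p.1 p.2) : ℝ)| + |(inner ℝ x (rt e c 1 (-1) p.1 p.2) : ℝ)| =
      c ^ 2 * (2 * max |(z p.1 : ℝ)| |(z p.2 : ℝ)|) := by
    intro p
    rw [inner_rt, inner_rt, h2, h2]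
    have h6 : c * (((1 : ℤ) : ℝ) * (c * z p.1) + ((1 : ℤ) : ℝ) * (c * z p.2)) = c ^ 2 * ((z p.1 : ℝ) + z p.2) := by
      push_cast; ring
    have h7 : c * (((1 : ℤ) : ℝ) * (c * z p.1) + ((-1 : ℤ) : ℝ) * (c * z p.2)) = c ^ 2 * ((z p.1 : ℝ) - z p.2) := by
      push_cast; ring
    rw [h6, h7, abs_mul, abs_mul, abs_of_pos (by positivity : (0 : ℝ) < c ^ 2), ← mul_add]
    congr 1
    rcases le_total |(z p.1 : ℝ)| |(z p.2 : ℝ)| with h | h
    · rw [max_eq_right h]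
      rcases abs_cases (z p.1 : ℝ) with h8 | h8 <;> rcases abs_cases (z p.2 : ℝ) with h9 | h9 <;>
        rcases abs_cases ((z p.1 : ℝ) + z p.2) with h10 | h10 <;>
        rcases abs_cases ((z p.1 : ℝ) - z p.2) with h11 | h11 <;> linarith
    · rw [max_eq_left h]
      rcases abs_cases (z p.1 : ℝ) with h8 | h8 <;> rcases abs_cases (z p.2 : ℝ) with h9 | h9 <;>
        rcases abs_cases ((z p.1 : ℝ) + z p.2) with h10 | h10 <;>
        rcases abs_cases ((z p.1 : ℝ) - z p.2) with h11 | h11 <;> linarith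
  have h6 : ∀ i, |(inner ℝ x (((d : ℝ) * c) • e i) : ℝ)| = c ^ 2 * (d * |(z i : ℝ)|) := by
    intro i
    rw [inner_smul_right, h2]
    have h7 : (d : ℝ) * c * (c * z i) = (c ^ 2 * d) * z i := by ring
    rw [h7, abs_mul, abs_of_nonneg (by positivity : (0 : ℝ) ≤ c ^ 2 * d)]
    ring
  unfold cas
  rw [h3, h4]
  simp only [h5, h6]
  rw [← Finset.mul_sum, ← Finset.mul_sum, ← Finset.mul_sum, ← Finset.mul_sum]
  by_cases hd : d = 0
  · rw [if_pos hd, hd]
    push_cast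
    ring
  · rw [if_neg hd]
    ring

end

end TF
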