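import Pool.Agent.Helper27.TF.Small
import Pool.Agent.Helper21.TF.Long

/-!
Project TF (MP_b8862a_ag): the Euclidean theorem: `n ≤ C gcd(n, T)^4`, or the weights are those of the standard
representation of a classical algebra, or the highest weight is a root of maximal length.
-/

open Module PF

namespace TF

variable {E : Type*} [NormedAddCommGroup E] [InnerProductSpace ℝ E] {Φ X : Finset E} {n T : ℕ} {l y : E}

/-- rescaling -/
theorem In.sc (h : In Φ X n T l y) {c : ℝ} (hc : 0 < c) :
    In (PF.sc c Φ) (PF.sc c X) n T (c • l) (c⁻¹ • y) := by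
  classical
  have hspan : Submodule.span ℝ (PF.sc c Φ : Set E) = Submodule.span ℝ (Φ : Set E) := by
    apply le_antisymm
    · rw [Submodule.span_le]
      intro a ha
      obtain ⟨b, hb, rfl⟩ := mem_sc.1 (Finset.mem_coe.1 ha)
      exact Submodule.smul_mem _ _ (Submodule.subset_span hb)
    · rw [Submodule.span_le]
      intro a ha
      have h1 : a = c⁻¹ • (c • a) := by rw [smul_smul, inv_mul_cancel₀ hc.ne', one_smul]
      rw [h1]
      exact Submodule.smul_mem _ _ (Submodule.subset_span (Finset.mem_coe.2 ((smul_mem_sc hc).2 ha)))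
  refine ⟨h.rs.sc hc, h.sat.sc hc, by rw [card_sc hc]; exact h.card_le, (smul_mem_sc hc).2 h.l_mem,
    smul_ne_zero hc.ne' h.l_ne, ?_, ?_, ?_, ?_⟩
  · intro x hx
    obtain ⟨x', hx', rfl⟩ := mem_sc.1 hx
    rw [inner_smul_left, inner_smul_right, inner_smul_left, inner_smul_right]
    simp only [conj_trivial]
    have := h.l_max x' hx'
    have h2 : 0 < c * c := by positivity
    nlinarith
  · intro a ha
    obtain ⟨a', ha', rfl⟩ := mem_sc.1 ha
    obtain ⟨k, hk⟩ := h.lev a' ha'
    refine ⟨k, ?_⟩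
    rw [inner_smul_left, inner_smul_right, conj_trivial, hk]
    field_simp
  · rw [hspan]
    exact Submodule.smul_mem _ _ h.y_mem
  · rw [hspan, card_sc hc, ← h.idt]
    have h1 : cas (PF.sc c Φ) (c • l) = c ^ 2 * cas Φ l := by
      unfold cas
      rw [PF.sc, Finset.sum_image (fun x _ y _ h => smul_inj' hc h), inner_smul_left, inner_smul_right]
      have h2 : ∀ a ∈ Φ, |(inner ℝ (c • l) (c • a) : ℝ)| = c ^ 2 * |(inner ℝ l a : ℝ)| := by
        intro a _
        rw [inner_smul_left, inner_smul_right, conj_trivial, ← mul_assoc, abs_mul,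
          abs_of_pos (by positivity : (0 : ℝ) < c * c)]
        ring
      rw [Finset.sum_congr rfl h2, ← Finset.mul_sum]
      simp only [conj_trivial]
      ring
    rw [h1, inner_smul_left, inner_smul_right]
    simp only [conj_trivial]
    field_simp

/-- **The Euclidean theorem of project TF.** -/
theorem main.{u} : ∃ C : ℕ, ∀ {E : Type u} [NormedAddCommGroup E] [InnerProductSpace ℝ E] (Φ X : Finset E)
    (n T : ℕ) (l y : E), In Φ X n T l y → n ≤ C * Nat.gcd n T ^ 4 ∨ TypeB Φ X ∨ TypeD Φ X ∨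
      (l ∈ Φ ∧ ∀ a ∈ Φ, (inner ℝ a a : ℝ) ≤ inner ℝ l l) := by
  obtain ⟨M, hM⟩ := classical.{u} 9
  refine ⟨2000000 + 24 * M ^ 2, fun {E} _ _ Φ X n T l y h => ?_⟩
  obtain ⟨c, hc, hN⟩ := exists_NRS h.rs
  have h' := h.sc hc
  have hg : 0 < Nat.gcd n T := Nat.gcd_pos_of_pos_left _ h.n_pos
  by_cases hcard : M ≤ (PF.sc c Φ).card
  · obtain ⟨m, hm, F⟩ := hM _ hN hcard
    rcases h'.cls hm F with h1 | h1 | h1 | ⟨h1, h2⟩
    · left
      exact h1.trans (Nat.mul_le_mul_right _ (by omega))
    · exact Or.inr (Or.inl (h1.of_sc hc))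
    · exact Or.inr (Or.inr (Or.inl (h1.of_sc hc)))
    · refine Or.inr (Or.inr (Or.inr ⟨(smul_mem_sc hc).1 h1, fun a ha => ?_⟩))
      have h3 := h2 (c • a) ((smul_mem_sc hc).2 ha)
      rw [inner_smul_left, inner_smul_right, inner_smul_left, inner_smul_right] at h3
      simp only [conj_trivial] at h3
      have h4 : 0 < c * c := by positivity
      by_contra hcon
      push Not at hcon
      nlinarith
  · left
    push Not at hcard
    have h1 := h'.small hN
    calc n ≤ Nat.gcd n T * (24 * (PF.sc c Φ).card ^ 2) := h1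
      _ ≤ Nat.gcd n T ^ 4 * (24 * M ^ 2) := by
          refine Nat.mul_le_mul (Nat.le_self_pow (by norm_num) _) (Nat.mul_le_mul_left _ ?_)
          exact Nat.pow_le_pow_left hcard.le 2
      _ = (24 * M ^ 2) * Nat.gcd n T ^ 4 := by ring
      _ ≤ (2000000 + 24 * M ^ 2) * Nat.gcd n T ^ 4 := Nat.mul_le_mul_right _ (by omega)

end TF
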